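import Mathlib
import Pool.Agent.H204R3.CM.Defs
import Pool.Agent.H204R3.GP.MTDefs
import Pool.Agent.W516.MT.Defs

/-!
# Abelian schemes, flat classes and Tate classes on products with another family

Let `k₀` be a finitely generated field in `ℂ`, `B` a smooth geometrically connected variety over
`k₀`, `A → B` a polarized abelian scheme and `Z → B` a smooth projective morphism, for instance
`Z = Z₀ × B` with a smooth projective variety `Z₀` over `k₀`.

The rational homology of the fibres of `A` over the universal covering of `B(ℂ)` is trivialized: it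
is a rational vector space `W` with the polarization `ω₀`. For a point `b` the inclusion of `W` in the
tangent space of the fibre `A_b` (which is identified with a fixed complex vector space `T`) is
`per b`. The group `P` is the fundamental group of `B(ℂ)` and `τ` is its action on `W`.

The group `Γ` is the etale fundamental group of `B` (a quotient of the Galois group of the function
field of `B`), `ρ` is its action on the rational Tate module `K ⊗ W`, `K = ℚ_ℓ`, of the generic fibre,
`χ` is the cyclotomic character and `σ` is the action on the `ℓ`-adic cohomology `M` of the geometric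
generic fibre of `Z`.
-/

set_option autoImplicit false

namespace Pool.Agent.E8helper1.NU

open TensorProduct Pool.Agent.H204R3.CM Pool.Agent.H204R3.GP

variable {B W T : Type} [AddCommGroup W] [Module ℚ W] [AddCommGroup T] [Module ℂ T]

/-- `Q` is an endomorphism (with rational coefficients) of all members of the family. -/
def IsFlatEnd (per : B → W →+ T) (Q : W →ₗ[ℚ] W) : Prop := ∀ b, IsHodgeEnd (per b) Q

/-- An endomorphism of the family which commutes with all endomorphisms of the family acts on the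
tangent spaces with real trace. -/
def CentreHasRealTraces (per : B → W →+ T) : Prop :=
  ∀ Q, IsFlatEnd per Q → (∀ R, IsFlatEnd per R → Q * R = R * Q) →
    ∀ b, ∀ Q' : T →ₗ[ℂ] T, (∀ w, Q' (per b w) = per b (Q w)) → (LinearMap.trace ℂ T Q').im = 0

/-- The real linear map `θ` is the parallel transport from the tangent space at `s` to the tangent
space at `t` (both are identified with the real homology). -/
def IsTransport (per : B → W →+ T) (s t : B) (θ : T →ₗ[ℝ] T) : Prop :=
  ∀ w, θ (per s w) = per t w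

/-- The family has no unitary part: an element `e = ∑ a i • Q i` of `End(A / B) ⊗ ℝ` is zero if the
parallel transports are complex linear on its image. -/
def NoUnitaryPart (per : B → W →+ T) : Prop :=
  ∀ (m : ℕ) (a : Fin m → ℝ) (Q : Fin m → W →ₗ[ℚ] W), (∀ i, IsFlatEnd per (Q i)) →
    (∀ s t θ, IsTransport per s t θ → ∀ w,
      θ (Complex.I • ∑ i, a i • per s (Q i w)) = Complex.I • ∑ i, a i • per t (Q i w)) →
    ∀ b w, ∑ i, a i • per b (Q i w) = 0

/-- The inclusion of the homology of the power `A ^ n` in its tangent space. -/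
def pow (per : W →+ T) (n : ℕ) : (Fin n → W) →+ (Fin n → T) := per.compLeft (Fin n)

/-- The Weil operator (multiplication by `i (p - q)`, up to sign, on `H ^ (p, q)`) of the complex
torus maps the rational class `f` on `A ^ n` to the real class `G`. -/
def IsWeilImage (per : W →+ T) {n k : ℕ} (f : (Fin n → W) [⋀^Fin k]→ₗ[ℚ] ℚ)
    (G : (Fin n → W) [⋀^Fin k]→ₗ[ℚ] ℝ) : Prop :=
  ∃ Φ : (Fin n → T) [⋀^Fin k]→ₗ[ℝ] ℝ, (∀ w, Φ (fun l => pow per n (w l)) = f w) ∧
    ∀ w : Fin k → Fin n → W,
      ∑ l, Φ (Function.update (fun l => pow per n (w l)) l (Complex.I • pow per n (w l))) = G w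

variable {P : Type} [Group P]

/-- The class `f` on `A ^ n` is invariant under the subgroup `P'` of the fundamental group. -/
def IsInvariant (τ : Representation ℚ P W) (P' : Subgroup P) {n k : ℕ} {R : Type} [AddCommGroup R]
    [Module ℚ R] (f : (Fin n → W) [⋀^Fin k]→ₗ[ℚ] R) : Prop :=
  ∀ γ ∈ P', ∀ w : Fin k → Fin n → W, f (fun l j => τ γ (w l j)) = f w

/-- The theorem of the fixed part (Deligne): for every finite covering of the base the Hodge
structure of a fibre of `A ^ n` induces a Hodge structure on the space of the invariant classes, which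
does not depend on the fibre. -/
def FixedPart (per : B → W →+ T) (τ : Representation ℚ P W) : Prop :=
  ∀ P' : Subgroup P, P'.FiniteIndex → ∀ (n k : ℕ) (f : (Fin n → W) [⋀^Fin k]→ₗ[ℚ] ℚ),
    IsInvariant τ P' f →
    ∃ G : (Fin n → W) [⋀^Fin k]→ₗ[ℚ] ℝ, IsInvariant τ P' G ∧ ∀ b, IsWeilImage (per b) f G

/-- The rational class `f` on `A ^ n` is a Hodge class on all members of the family. -/
def IsFlatHodge (per : B → W →+ T) {n k : ℕ} (f : (Fin n → W) [⋀^Fin k]→ₗ[ℚ] ℚ) : Prop :=
  ∀ b, IsHodge (pow (per b) n) f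

section ladic

variable {K : Type} [Field K] [CharZero K] {Γ M : Type} [Group Γ] [AddCommGroup M] [Module K M]

/-- The `ℓ`-adic class `f'` on `A ^ n` is the image of the rational class `f` under the comparison
isomorphism. -/
def Compares {n k : ℕ} (f : (Fin n → W) [⋀^Fin k]→ₗ[ℚ] ℚ)
    (f' : (Fin n → K ⊗[ℚ] W) [⋀^Fin k]→ₗ[K] K) : Prop :=
  ∀ w : Fin k → Fin n → W, f' (fun l j => (1 : K) ⊗ₜ[ℚ] w l j) = ((f w : ℚ) : K)

/-- The element `F` of `H ^ k(A ^ n) ⊗ M (m)`, where `M` is the cohomology of `Z`, is a Tate class. -/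
def IsTateOnProduct (ρ : Representation K Γ (K ⊗[ℚ] W)) (χ : Γ →* K) (σ : Representation K Γ M)
    (m : ℕ) {n k : ℕ} (F : (Fin n → K ⊗[ℚ] W) [⋀^Fin k]→ₗ[K] M) : Prop :=
  ∃ Δ : Subgroup Γ, Δ.FiniteIndex ∧ ∀ s ∈ Δ, ∀ v : Fin k → Fin n → K ⊗[ℚ] W,
    F (fun l j => ρ s (v l j)) = χ s ^ m • σ s (F v)

/-- The element `x` of `M (i)` is a Tate class on `Z`. -/
def IsTateOn (χ : Γ →* K) (σ : Representation K Γ M) (i : ℕ) (x : M) : Prop :=
  ∃ Δ : Subgroup Γ, Δ.FiniteIndex ∧ ∀ s ∈ Δ, χ s ^ i • σ s x = x

/-- The monodromy of `A` is independent of the monodromy `ς` on the cohomology `M` of `Z`: a class in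
`H ^ k(A ^ n) ⊗ M` which is invariant under a subgroup of finite index of the fundamental group is
invariant under the action of a subgroup of finite index on the first factor alone. -/
def IndependentMonodromy (τ : Representation ℚ P W) (ς : Representation K P M) : Prop :=
  ∀ P' : Subgroup P, P'.FiniteIndex → ∀ (n k : ℕ) (F : (Fin n → K ⊗[ℚ] W) [⋀^Fin k]→ₗ[K] M),
    (∀ γ ∈ P', ∀ v : Fin k → Fin n → K ⊗[ℚ] W,
      F (fun l j => (τ γ).baseChange K (v l j)) = ς γ (F v)) →
    ∃ P'' : Subgroup P, P''.FiniteIndex ∧ ∀ γ ∈ P'', ∀ v : Fin k → Fin n → K ⊗[ℚ] W,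
      F (fun l j => (τ γ).baseChange K (v l j)) = F v

/-- The theorem of Deligne: Hodge classes on abelian varieties are Tate classes. -/
def HodgeIsTate (per : B → W →+ T) (ρ : Representation K Γ (K ⊗[ℚ] W)) (χ : Γ →* K) : Prop :=
  ∀ (n r : ℕ) (f : (Fin n → W) [⋀^Fin (2 * r)]→ₗ[ℚ] ℚ)
    (f' : (Fin n → K ⊗[ℚ] W) [⋀^Fin (2 * r)]→ₗ[K] K), IsFlatHodge per f → Compares f f' →
    IsTateOnProduct ρ χ (Representation.trivial K Γ K) r f'

/-- The span of the products `f ⊗ x` in `H ^ k(A ^ n) ⊗ M (m)`, where `f` is a Hodge class in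
`H ^ (2 r) (A ^ n) (r)`, `k = 2 r`, and `x` is a Tate class in `M (i)`, `m = r + i`. -/
def productClasses (per : B → W →+ T) (χ : Γ →* K) (σ : Representation K Γ M) (n k m : ℕ) :
    Submodule K ((Fin n → K ⊗[ℚ] W) [⋀^Fin k]→ₗ[K] M) :=
  Submodule.span K {F | ∃ (r i : ℕ) (f : (Fin n → W) [⋀^Fin k]→ₗ[ℚ] ℚ)
    (f' : (Fin n → K ⊗[ℚ] W) [⋀^Fin k]→ₗ[K] K) (x : M), k = 2 * r ∧ m = r + i ∧
    IsFlatHodge per f ∧ Compares f f' ∧ IsTateOn χ σ i x ∧ ∀ v, F v = f' v • x}

end ladic

end Pool.Agent.E8helper1.NU
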