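import Mathlib

/-!
# Real span of a rational space of matrices
-/

set_option autoImplicit false

namespace Pool.Agent.E8helper1.NU

open Matrix

variable {β : Type*} [Fintype β] [DecidableEq β]

/-- Extension of scalars of rational matrices. -/
def rc (X : Matrix β β ℚ) : Matrix β β ℝ := X.map (fun x : ℚ => (x : ℝ))

omit [Fintype β] [DecidableEq β] in
theorem rc_apply (X : Matrix β β ℚ) (i j : β) : rc X i j = (X i j : ℝ) := rfl

omit [DecidableEq β] in
theorem rc_mul (X Y : Matrix β β ℚ) : rc (X * Y) = rc X * rc Y :=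
  Matrix.map_mul (f := Rat.castHom ℝ)

omit [Fintype β] [DecidableEq β] in
theorem rc_add (X Y : Matrix β β ℚ) : rc (X + Y) = rc X + rc Y := by
  ext i j
  simp [rc]

omit [Fintype β] [DecidableEq β] in
theorem rc_sub (X Y : Matrix β β ℚ) : rc (X - Y) = rc X - rc Y := by
  ext i j
  simp [rc]

omit [Fintype β] [DecidableEq β] in
theorem rc_neg (X : Matrix β β ℚ) : rc (-X) = -rc X := by
  ext i j
  simp [rc]

omit [Fintype β] [DecidableEq β] in
theorem rc_transpose (X : Matrix β β ℚ) : rc Xᵀ = (rc X)ᵀ := rfl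

omit [Fintype β] [DecidableEq β] in
theorem rc_injective : Function.Injective (rc : Matrix β β ℚ → Matrix β β ℝ) := by
  intro X Y h
  ext i j
  have := congrFun (congrFun h i) j
  rw [rc_apply, rc_apply] at this
  exact_mod_cast this

/-- The real span of a rational space of matrices. -/
noncomputable def cx (S : Submodule ℚ (Matrix β β ℚ)) : Submodule ℝ (Matrix β β ℝ) :=
  Submodule.span ℝ (rc '' (S : Set (Matrix β β ℚ)))

omit [Fintype β] [DecidableEq β] in
theorem rc_mem {S : Submodule ℚ (Matrix β β ℚ)} {X : Matrix β β ℚ} (hX : X ∈ S) : rc X ∈ cx S :=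
  Submodule.subset_span ⟨X, hX, rfl⟩

omit [Fintype β] [DecidableEq β] in
/-- A rational linear functional applied to the entries. -/
theorem lam_rc (lam : ℝ →ₗ[ℚ] ℚ) (X : Matrix β β ℚ) : (rc X).map lam = lam 1 • X := by
  ext i j
  rw [Matrix.map_apply, rc_apply, Matrix.smul_apply, smul_eq_mul]
  have h : ((X i j : ℚ) : ℝ) = (X i j) • (1 : ℝ) := by rw [Rat.smul_def, mul_one]
  rw [h, map_smul, smul_eq_mul, mul_comm]

/-- The functional `x ↦ lam (c * x)`. -/
noncomputable def lamMul (lam : ℝ →ₗ[ℚ] ℚ) (c : ℝ) : ℝ →ₗ[ℚ] ℚ := lam ∘ₗ (LinearMap.mulLeft ℚ c)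

omit [Fintype β] [DecidableEq β] in
theorem lam_smul (lam : ℝ →ₗ[ℚ] ℚ) (c : ℝ) (X : Matrix β β ℝ) :
    (c • X).map lam = X.map (lamMul lam c) := by
  ext i j
  rfl

omit [Fintype β] [DecidableEq β] in
theorem lam_add (lam : ℝ →ₗ[ℚ] ℚ) (X Y : Matrix β β ℝ) :
    (X + Y).map lam = X.map lam + Y.map lam := by
  ext i j
  simp

omit [Fintype β] [DecidableEq β] in
theorem lam_sub (lam : ℝ →ₗ[ℚ] ℚ) (X Y : Matrix β β ℝ) :
    (X - Y).map lam = X.map lam - Y.map lam := by
  ext i j
  simp

omit [DecidableEq β] in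
/-- A real matrix is a real combination of its images under rational linear functionals. -/
theorem mem_cx_iff {S : Submodule ℚ (Matrix β β ℚ)} {X : Matrix β β ℝ} :
    X ∈ cx S ↔ ∀ lam : ℝ →ₗ[ℚ] ℚ, X.map lam ∈ S := by
  classical
  constructor
  · intro hX
    refine Submodule.span_induction (p := fun X _ => ∀ lam : ℝ →ₗ[ℚ] ℚ, X.map lam ∈ S)
      ?_ ?_ ?_ ?_ hX
    · rintro _ ⟨A, hA, rfl⟩ lam
      rw [lam_rc]
      exact S.smul_mem _ hA
    · intro lam
      have : (0 : Matrix β β ℝ).map lam = 0 := by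
        ext i j
        simp
      rw [this]
      exact S.zero_mem
    · intro X Y _ _ hX hY lam
      rw [lam_add]
      exact S.add_mem (hX lam) (hY lam)
    · intro c X _ hX lam
      rw [lam_smul]
      exact hX _
  · intro h
    let b := Module.Basis.ofVectorSpace ℚ ℝ
    let s := (Finset.univ : Finset (β × β)).biUnion (fun p => (b.repr (X p.1 p.2)).support)
    have h1 : X = ∑ j ∈ s, (b j) • rc (X.map (b.coord j)) := by
      ext i k
      rw [Matrix.sum_apply]
      have h1 : X i k = ∑ j ∈ s, b.repr (X i k) j • b j := by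
        have h2 : X i k = (b.repr (X i k)).sum fun j a => a • b j :=
          (b.linearCombination_repr (X i k)).symm
        conv_lhs => rw [h2]
        rw [Finsupp.sum]
        refine Finset.sum_subset ?_ ?_
        · intro j hj
          exact Finset.mem_biUnion.2 ⟨(i, k), Finset.mem_univ _, hj⟩
        · intro j _ hj
          rw [Finsupp.notMem_support_iff.1 hj, zero_smul]
      conv_lhs => rw [h1]
      refine Finset.sum_congr rfl fun j _ => ?_
      rw [Matrix.smul_apply, smul_eq_mul, rc_apply, Matrix.map_apply, Rat.smul_def, mul_comm]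
      rfl
    rw [h1]
    exact Submodule.sum_mem _ fun j _ => Submodule.smul_mem _ _ (rc_mem (h _))

omit [DecidableEq β] in
/-- Bracket of real spans. -/
theorem bracket_mem {S T U : Submodule ℚ (Matrix β β ℚ)}
    (h : ∀ X ∈ S, ∀ Y ∈ T, X * Y - Y * X ∈ U) {X Y : Matrix β β ℝ} (hX : X ∈ cx S)
    (hY : Y ∈ cx T) : X * Y - Y * X ∈ cx U := by
  refine Submodule.span_induction (p := fun X _ => X * Y - Y * X ∈ cx U) ?_ ?_ ?_ ?_ hX
  · rintro _ ⟨A, hA, rfl⟩
    refine Submodule.span_induction (p := fun Y _ => rc A * Y - Y * rc A ∈ cx U) ?_ ?_ ?_ ?_ hY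
    · rintro _ ⟨C, hC, rfl⟩
      rw [← rc_mul, ← rc_mul, ← rc_sub]
      exact rc_mem (h A hA C hC)
    · rw [mul_zero, zero_mul, sub_zero]
      exact Submodule.zero_mem _
    · intro Y Y' _ _ hY hY'
      have : rc A * (Y + Y') - (Y + Y') * rc A = (rc A * Y - Y * rc A) + (rc A * Y' - Y' * rc A) := by
        noncomm_ring
      rw [this]
      exact Submodule.add_mem _ hY hY'
    · intro c Y _ hY
      rw [mul_smul_comm, smul_mul_assoc, ← smul_sub]
      exact Submodule.smul_mem _ _ hY
  · rw [mul_zero, zero_mul, sub_zero]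
    exact Submodule.zero_mem _
  · intro X X' _ _ hX hX'
    have : (X + X') * Y - Y * (X + X') = (X * Y - Y * X) + (X' * Y - Y * X') := by
      noncomm_ring
    rw [this]
    exact Submodule.add_mem _ hX hX'
  · intro c X _ hX
    rw [mul_smul_comm, smul_mul_assoc, ← smul_sub]
    exact Submodule.smul_mem _ _ hX

omit [DecidableEq β] in
/-- The trace form on real spans. -/
theorem trace_cx {S T : Submodule ℚ (Matrix β β ℚ)}
    (h : ∀ X ∈ S, ∀ Y ∈ T, trace (X * Y) = 0) {X Y : Matrix β β ℝ} (hX : X ∈ cx S)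
    (hY : Y ∈ cx T) : trace (X * Y) = 0 := by
  refine Submodule.span_induction (p := fun X _ => trace (X * Y) = 0) ?_ ?_ ?_ ?_ hX
  · rintro _ ⟨A, hA, rfl⟩
    refine Submodule.span_induction (p := fun Y _ => trace (rc A * Y) = 0) ?_ ?_ ?_ ?_ hY
    · rintro _ ⟨C, hC, rfl⟩
      rw [← rc_mul]
      have h1 : trace (rc (A * C)) = ((trace (A * C) : ℚ) : ℝ) := by
        simp [trace, rc_apply]
      rw [h1, h A hA C hC]
      simp
    · rw [mul_zero, trace_zero]
    · intro Y Y' _ _ hY hY'
      rw [mul_add, trace_add, hY, hY', add_zero]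
    · intro c Y _ hY
      rw [mul_smul_comm, trace_smul, hY, smul_zero]
  · rw [zero_mul, trace_zero]
  · intro X X' _ _ hX hX'
    rw [add_mul, trace_add, hX, hX', add_zero]
  · intro c X _ hX
    rw [smul_mul_assoc, trace_smul, hX, smul_zero]

omit [Fintype β] [DecidableEq β] in
theorem cx_mono {S T : Submodule ℚ (Matrix β β ℚ)} (h : S ≤ T) : cx S ≤ cx T :=
  Submodule.span_mono (Set.image_mono h)

end Pool.Agent.E8helper1.NU
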