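import Mathlib
import Pool.Agent.E8helper1.NU.Core

/-!
# The structure of the Hodge Lie algebra of a family relative to the flat classes
-/

set_option autoImplicit false
set_option linter.unusedSectionVars false

namespace Pool.Agent.E8helper1.NU

open Matrix

variable {β : Type*} [Fintype β] [DecidableEq β]

/-- A family of complex structures polarized by the same rational alternating form. -/
structure Fam (β : Type*) [Fintype β] [DecidableEq β] (B : Type*) where
  /-- the complex structures -/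
  J : B → Matrix β β ℝ
  /-- the polarization -/
  Om : Matrix β β ℚ
  Om_skew : Omᵀ = -Om
  J_sq : ∀ b, J b * J b = -1
  J_sp : ∀ b, (J b)ᵀ * rc Om = -(rc Om * J b)
  J_pos : ∀ b v, v ≠ 0 → 0 < (J b *ᵥ v) ⬝ᵥ (rc Om *ᵥ v)

variable {B : Type*} (D : Fam β B)

namespace Fam

/-- The flat endomorphisms. -/
def E : Submodule ℚ (Matrix β β ℚ) where
  carrier := {P | ∀ b, D.J b * rc P = rc P * D.J b}
  zero_mem' := by
    intro b
    have : rc (0 : Matrix β β ℚ) = 0 := by
      ext i j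
      simp [rc]
    rw [this, mul_zero, zero_mul]
  add_mem' := by
    intro X Y hX hY b
    rw [rc_add, mul_add, add_mul, hX b, hY b]
  smul_mem' := by
    intro a X hX b
    have : rc (a • X) = (a : ℝ) • rc X := by
      ext i j
      simp [rc]
    rw [this, mul_smul_comm, smul_mul_assoc, hX b]

variable {U : Type*} [AddCommGroup U] [Module ℚ U] (r : Matrix β β ℚ →ₗ[ℚ] Module.End ℚ U)
  (hr : ∀ X Y, r (X * Y - Y * X) = r Y * r X - r X * r Y) (F : Submodule ℚ U)

/-- The largest Lie algebra that can be considered. -/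
def G : Submodule ℚ (Matrix β β ℚ) where
  carrier := {X | Xᵀ * D.Om = -(D.Om * X) ∧ (∀ P ∈ D.E, X * P = P * X) ∧ ∀ f ∈ F, r X f ∈ F}
  zero_mem' := by
    refine ⟨by simp, fun P _ => by simp, fun f _ => by simp⟩
  add_mem' := by
    rintro X Y ⟨h1, h2, h3⟩ ⟨h1', h2', h3'⟩
    refine ⟨?_, fun P hP => ?_, fun f hf => ?_⟩
    · rw [transpose_add, add_mul, h1, h1', mul_add]
      abel
    · rw [add_mul, mul_add, h2 P hP, h2' P hP]
    · rw [map_add, LinearMap.add_apply]
      exact F.add_mem (h3 f hf) (h3' f hf)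
  smul_mem' := by
    rintro a X ⟨h1, h2, h3⟩
    refine ⟨?_, fun P hP => ?_, fun f hf => ?_⟩
    · rw [transpose_smul, smul_mul_assoc, h1, mul_smul_comm, smul_neg]
    · rw [smul_mul_assoc, mul_smul_comm, h2 P hP]
    · rw [map_smul, LinearMap.smul_apply]
      exact F.smul_mem _ (h3 f hf)

/-- The ideal of the elements that kill `F`. -/
def K : Submodule ℚ (Matrix β β ℚ) where
  carrier := {X | X ∈ D.G r F ∧ ∀ f ∈ F, r X f = 0}
  zero_mem' := ⟨Submodule.zero_mem _, fun f _ => by simp⟩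
  add_mem' := by
    rintro X Y ⟨h1, h2⟩ ⟨h1', h2'⟩
    refine ⟨Submodule.add_mem _ h1 h1', fun f hf => ?_⟩
    rw [map_add, LinearMap.add_apply, h2 f hf, h2' f hf, add_zero]
  smul_mem' := by
    rintro a X ⟨h1, h2⟩
    refine ⟨Submodule.smul_mem _ _ h1, fun f hf => ?_⟩
    rw [map_smul, LinearMap.smul_apply, h2 f hf, smul_zero]

/-- The orthogonal complement of the ideal. -/
def C : Submodule ℚ (Matrix β β ℚ) where
  carrier := {Y | Y ∈ D.G r F ∧ ∀ X ∈ D.K r F, trace (X * Y) = 0}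
  zero_mem' := ⟨Submodule.zero_mem _, fun f _ => by simp⟩
  add_mem' := by
    rintro X Y ⟨h1, h2⟩ ⟨h1', h2'⟩
    refine ⟨Submodule.add_mem _ h1 h1', fun f hf => ?_⟩
    rw [mul_add, trace_add, h2 f hf, h2' f hf, add_zero]
  smul_mem' := by
    rintro a X ⟨h1, h2⟩
    refine ⟨Submodule.smul_mem _ _ h1, fun f hf => ?_⟩
    rw [mul_smul_comm, trace_smul, h2 f hf, smul_zero]

variable {D r F}

theorem K_le : D.K r F ≤ D.G r F := fun _ h => h.1

theorem C_le : D.C r F ≤ D.G r F := fun _ h => h.1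

include hr

theorem G_bracket {X Y : Matrix β β ℚ} (hX : X ∈ D.G r F) (hY : Y ∈ D.G r F) :
    X * Y - Y * X ∈ D.G r F := by
  obtain ⟨h1, h2, h3⟩ := hX
  obtain ⟨h1', h2', h3'⟩ := hY
  refine ⟨?_, fun P hP => ?_, fun f hf => ?_⟩
  · rw [transpose_sub, transpose_mul, transpose_mul, sub_mul, mul_assoc, h1, mul_assoc, h1', mul_neg,
      ← mul_assoc, h1', mul_neg, ← mul_assoc, h1]
    noncomm_ring
  · rw [sub_mul, mul_assoc, h2' P hP, ← mul_assoc, h2 P hP, mul_assoc Y X P, h2 P hP,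
      ← mul_assoc Y P X, h2' P hP, mul_sub, mul_assoc, mul_assoc]
  · rw [hr, LinearMap.sub_apply]
    exact F.sub_mem (h3' _ (h3 f hf)) (h3 _ (h3' f hf))

theorem K_bracket {X Y : Matrix β β ℚ} (hX : X ∈ D.G r F) (hY : Y ∈ D.K r F) :
    X * Y - Y * X ∈ D.K r F := by
  refine ⟨G_bracket hr hX hY.1, fun f hf => ?_⟩
  rw [hr, LinearMap.sub_apply, Module.End.mul_apply, Module.End.mul_apply, hY.2 f hf, map_zero,
    hY.2 _ (hX.2.2 f hf), sub_zero]

theorem C_bracket {X Y : Matrix β β ℚ} (hX : X ∈ D.G r F) (hY : Y ∈ D.C r F) :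
    X * Y - Y * X ∈ D.C r F := by
  refine ⟨G_bracket hr hX hY.1, fun Z hZ => ?_⟩
  have h := hY.2 (Z * X - X * Z) (by
    have := (D.K r F).neg_mem (K_bracket hr hX hZ)
    rwa [neg_sub] at this)
  rw [← h, mul_sub, sub_mul, trace_sub, trace_sub, mul_assoc Z X Y, ← mul_assoc Z Y X,
    trace_mul_comm (Z * Y) X, mul_assoc X Z Y]

end Fam

end Pool.Agent.E8helper1.NU
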