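import Mathlib
import Pool.Agent.E8helper1.NU.Struct

/-!
# The decomposition of the complex structures
-/

set_option autoImplicit false
set_option linter.unusedSectionVars false

namespace Pool.Agent.E8helper1.NU

open Matrix

variable {β : Type*} [Fintype β] [DecidableEq β] {B : Type*} (D : Fam β B)

namespace Fam

/-- The positive definite form. -/
def H (b : B) : Matrix β β ℝ := (D.J b)ᵀ * rc D.Om

theorem H_symm (b : B) : (D.H b)ᵀ = D.H b := by
  unfold H
  rw [transpose_mul, transpose_transpose, ← rc_transpose, D.Om_skew, rc_neg, neg_mul, D.J_sp b]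

theorem H_dot (b : B) (u v : β → ℝ) : u ⬝ᵥ (D.H b *ᵥ v) = (D.J b *ᵥ u) ⬝ᵥ (rc D.Om *ᵥ v) := by
  unfold H
  rw [← mulVec_mulVec, dotProduct_mulVec, vecMul_transpose]

theorem H_posDef (b : B) : (D.H b).PosDef := by
  refine PosDef.of_dotProduct_mulVec_pos ?_ fun x hx => ?_
  · rw [IsHermitian, conjTranspose_eq_transpose_of_trivial]
    exact D.H_symm b
  · rw [star_trivial, H_dot]
    exact D.J_pos b x hx

/-- Skew elements. -/
def Skew (X : Matrix β β ℝ) : Prop := Xᵀ * rc D.Om = -(rc D.Om * X)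

variable {D}

theorem skew_H {X : Matrix β β ℝ} (hX : D.Skew X) (b : B) :
    Xᵀ * D.H b = D.H b * (D.J b * X * D.J b) := by
  have h1 : Xᵀ * D.H b = rc D.Om * X * D.J b := by
    unfold H
    rw [D.J_sp b, mul_neg, ← mul_assoc, hX, neg_mul, neg_neg]
  have h2 : D.H b * (D.J b * X * D.J b) = rc D.Om * X * D.J b := by
    unfold H
    rw [D.J_sp b]
    have : -(rc D.Om * D.J b) * (D.J b * X * D.J b) = -(rc D.Om * (D.J b * D.J b) * X * D.J b) := by
      noncomm_ring
    rw [this, D.J_sq b]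
    noncomm_ring
  rw [h1, h2]

section

open scoped MatrixOrder

theorem exists_sqrt {n : Type*} [Fintype n] [DecidableEq n] {H : Matrix n n ℝ} (hH : H.PosDef) :
    ∃ y : Matrix n n ℝ, IsUnit y ∧ H = star y * y :=
  CStarAlgebra.isStrictlyPositive_iff_eq_star_mul_self.mp hH.isStrictlyPositive

end

theorem eq_zero_of_trace {X : Matrix β β ℝ} (hX : D.Skew X) (b : B)
    (h : trace (X * (D.J b * X * D.J b)) = 0) : X = 0 := by
  obtain ⟨y, hy, hyy⟩ := exists_sqrt (D.H_posDef b)
  rw [star_eq_conjTranspose, conjTranspose_eq_transpose_of_trivial] at hyy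
  obtain ⟨yi, hyyi⟩ : ∃ yi, y * yi = 1 := hy.exists_right_inv
  have hyiy : yi * y = 1 := mul_eq_one_comm.1 hyyi
  have hyyiT : yiᵀ * yᵀ = 1 := by rw [← transpose_mul, hyyi, transpose_one]
  have h1 := skew_H hX b
  rw [hyy] at h1
  have h2 : D.J b * X * D.J b = yi * yiᵀ * Xᵀ * (yᵀ * y) := by
    have e1 : yi * yiᵀ * (yᵀ * y * (D.J b * X * D.J b)) = D.J b * X * D.J b := by
      have : yi * yiᵀ * (yᵀ * y * (D.J b * X * D.J b)) =
          yi * ((yiᵀ * yᵀ) * y) * (D.J b * X * D.J b) := by noncomm_ring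
      rw [this, hyyiT, one_mul, hyiy, one_mul]
    rw [← e1, ← h1]
    noncomm_ring
  have h5 : trace ((y * X * yi)ᴴ * (y * X * yi)) = 0 := by
    rw [conjTranspose_eq_transpose_of_trivial, trace_mul_comm, transpose_mul, transpose_mul]
    have e1 : y * X * yi * (yiᵀ * (Xᵀ * yᵀ)) = y * (X * yi * (yiᵀ * (Xᵀ * yᵀ))) := by
      noncomm_ring
    rw [e1, trace_mul_comm, ← h, h2]
    congr 1
    noncomm_ring
  rw [trace_conjTranspose_mul_self_eq_zero_iff] at h5
  have e1 : yi * (y * X * yi) * y = X := by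
    have : yi * (y * X * yi) * y = (yi * y) * X * (yi * y) := by noncomm_ring
    rw [this, hyiy, one_mul, mul_one]
  rw [← e1, h5, mul_zero, zero_mul]

/-- Conjugation by the complex structure. -/
theorem conj_mem {S T : Submodule ℚ (Matrix β β ℚ)}
    (h : ∀ X ∈ S, ∀ Y ∈ T, X * Y - Y * X ∈ T) {b : B} (hJ : D.J b ∈ cx S) {X : Matrix β β ℝ}
    (hX : X ∈ cx T) : D.J b * X * D.J b ∈ cx T := by
  have h1 := bracket_mem h hJ (bracket_mem h hJ hX)
  have h2 : D.J b * X * D.J b =
      (-(2 : ℝ)⁻¹) • (D.J b * (D.J b * X - X * D.J b) - (D.J b * X - X * D.J b) * D.J b) - X := by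
    have h3 : D.J b * (D.J b * X - X * D.J b) - (D.J b * X - X * D.J b) * D.J b =
        (D.J b * D.J b) * X - (2 : ℝ) • (D.J b * X * D.J b) + X * (D.J b * D.J b) := by
      rw [two_smul]
      noncomm_ring
    rw [h3, D.J_sq b]
    have h4 : (-1 : Matrix β β ℝ) * X - (2 : ℝ) • (D.J b * X * D.J b) + X * (-1 : Matrix β β ℝ) =
        -((2 : ℝ) • (D.J b * X * D.J b) + (2 : ℝ) • X) := by
      rw [two_smul ℝ X, neg_one_mul, mul_neg_one]
      abel
    rw [h4, smul_neg, neg_smul, neg_neg, smul_add, smul_smul, smul_smul,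
      inv_mul_cancel₀ (two_ne_zero), one_smul, one_smul]
    abel
  rw [h2]
  exact Submodule.sub_mem _ (Submodule.smul_mem _ _ h1) hX

/-- The part of `X` that anticommutes with the complex structure. -/
noncomputable def odd (D : Fam β B) (b : B) (X : Matrix β β ℝ) : Matrix β β ℝ :=
  (2 : ℝ)⁻¹ • (X + D.J b * X * D.J b)

theorem odd_anti (b : B) (X : Matrix β β ℝ) : D.J b * odd D b X = -(odd D b X * D.J b) := by
  unfold odd
  rw [mul_smul_comm, smul_mul_assoc, ← smul_neg]
  congr 1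
  have h1 : D.J b * (X + D.J b * X * D.J b) = D.J b * X + (D.J b * D.J b) * X * D.J b := by
    noncomm_ring
  have h2 : (X + D.J b * X * D.J b) * D.J b = X * D.J b + D.J b * X * (D.J b * D.J b) := by
    noncomm_ring
  rw [h1, h2, D.J_sq b]
  noncomm_ring

theorem sub_odd_comm (b : B) (X : Matrix β β ℝ) :
    D.J b * (X - odd D b X) = (X - odd D b X) * D.J b := by
  have h0 : X - odd D b X = (2 : ℝ)⁻¹ • (X - D.J b * X * D.J b) := by
    unfold odd
    have : X = (2 : ℝ)⁻¹ • (X + X) := by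
      rw [← two_smul ℝ X, smul_smul, inv_mul_cancel₀ two_ne_zero, one_smul]
    nth_rewrite 1 [this]
    rw [← smul_sub]
    congr 1
    abel
  rw [h0, mul_smul_comm, smul_mul_assoc]
  congr 1
  have h1 : D.J b * (X - D.J b * X * D.J b) = D.J b * X - (D.J b * D.J b) * X * D.J b := by
    noncomm_ring
  have h2 : (X - D.J b * X * D.J b) * D.J b = X * D.J b - D.J b * X * (D.J b * D.J b) := by
    noncomm_ring
  rw [h1, h2, D.J_sq b]
  noncomm_ring

variable {U : Type*} [AddCommGroup U] [Module ℚ U] {r : Matrix β β ℚ →ₗ[ℚ] Module.End ℚ U}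
  (hr : ∀ X Y, r (X * Y - Y * X) = r Y * r X - r X * r Y) {F : Submodule ℚ U}
  (hF : ∀ b (lam : ℝ →ₗ[ℚ] ℚ), ∀ f ∈ F, r ((D.J b).map lam) f ∈ F)
  (hc : ∀ b b' (lam : ℝ →ₗ[ℚ] ℚ), ∀ f ∈ F, r ((D.J b).map lam) f = r ((D.J b').map lam) f)

theorem skew_of_G {X : Matrix β β ℝ} (hX : X ∈ cx (D.G r F)) : D.Skew X := by
  unfold Skew
  refine Submodule.span_induction (p := fun X _ => Xᵀ * rc D.Om = -(rc D.Om * X)) ?_ ?_ ?_ ?_ hX
  · rintro _ ⟨A, hA, rfl⟩
    rw [← rc_transpose, ← rc_mul, hA.1, rc_neg, rc_mul]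
  · simp
  · intro X Y _ _ h1 h2
    rw [transpose_add, add_mul, h1, h2, mul_add]
    abel
  · intro c X _ h1
    rw [transpose_smul, smul_mul_assoc, h1, mul_smul_comm, smul_neg]

include hF in
theorem J_mem (b : B) : D.J b ∈ cx (D.G r F) := by
  rw [mem_cx_iff]
  intro lam
  refine ⟨?_, fun P hP => ?_, fun f hf => hF b lam f hf⟩
  · have h := D.J_sp b
    ext i j
    have h1 := congrFun (congrFun h i) j
    rw [Matrix.neg_apply, Matrix.mul_apply, Matrix.mul_apply] at h1
    have h2 := congrArg lam h1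
    rw [map_neg, map_sum, map_sum] at h2
    rw [Matrix.neg_apply, Matrix.mul_apply, Matrix.mul_apply]
    have e1 : ∀ k, lam ((D.J b)ᵀ i k * rc D.Om k j) = ((D.J b).map lam)ᵀ i k * D.Om k j := by
      intro k
      rw [rc_apply, mul_comm, ← Rat.smul_def, map_smul, smul_eq_mul, mul_comm]
      rfl
    have e2 : ∀ k, lam (rc D.Om i k * D.J b k j) = D.Om i k * ((D.J b).map lam) k j := by
      intro k
      rw [rc_apply, ← Rat.smul_def, map_smul, smul_eq_mul]
      rfl
    rw [Finset.sum_congr rfl (fun k _ => e1 k), Finset.sum_congr rfl (fun k _ => e2 k)] at h2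
    exact h2
  · have h := hP b
    ext i j
    have h1 := congrFun (congrFun h i) j
    rw [Matrix.mul_apply, Matrix.mul_apply] at h1
    have h2 := congrArg lam h1
    rw [map_sum, map_sum] at h2
    rw [Matrix.mul_apply, Matrix.mul_apply]
    have e1 : ∀ k, lam (D.J b i k * rc P k j) = ((D.J b).map lam) i k * P k j := by
      intro k
      rw [rc_apply, mul_comm, ← Rat.smul_def, map_smul, smul_eq_mul, mul_comm]
      rfl
    have e2 : ∀ k, lam (rc P i k * D.J b k j) = P i k * ((D.J b).map lam) k j := by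
      intro k
      rw [rc_apply, ← Rat.smul_def, map_smul, smul_eq_mul]
      rfl
    rw [Finset.sum_congr rfl (fun k _ => e1 k), Finset.sum_congr rfl (fun k _ => e2 k)] at h2
    exact h2

include hF hc in
theorem J_sub_mem (s t : B) : D.J s - D.J t ∈ cx (D.K r F) := by
  rw [mem_cx_iff]
  intro lam
  refine ⟨?_, fun f hf => ?_⟩
  · exact mem_cx_iff.1 (Submodule.sub_mem _ (J_mem hF s) (J_mem hF t)) lam
  · rw [lam_sub, map_sub, LinearMap.sub_apply, hc s t lam f hf, sub_self]

end Fam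

end Pool.Agent.E8helper1.NU
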