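import Mathlib
import Pool.Agent.E8helper1.NU.Struct2

/-!
# The complementary ideal and the unitary part
-/

set_option autoImplicit false
set_option linter.unusedSectionVars false

namespace Pool.Agent.E8helper1.NU

open Matrix

variable {β : Type*} [Fintype β] [DecidableEq β] {B : Type*} {D : Fam β B}

/-- The trace form. -/
def trF (β : Type*) [Fintype β] [DecidableEq β] : LinearMap.BilinForm ℚ (Matrix β β ℚ) :=
  LinearMap.mk₂ ℚ (fun X Y => trace (X * Y))
    (fun X Y Z => by rw [add_mul, trace_add])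
    (fun a X Y => by rw [smul_mul_assoc, trace_smul])
    (fun X Y Z => by rw [mul_add, trace_add])
    (fun a X Y => by rw [mul_smul_comm, trace_smul])

theorem trF_apply (X Y : Matrix β β ℚ) : trF β X Y = trace (X * Y) := rfl

theorem trF_refl : (trF β).IsRefl := by
  intro X Y h
  rw [trF_apply] at h ⊢
  rw [trace_mul_comm]
  exact h

namespace Fam

variable {U : Type*} [AddCommGroup U] [Module ℚ U] {r : Matrix β β ℚ →ₗ[ℚ] Module.End ℚ U}
  (hr : ∀ X Y, r (X * Y - Y * X) = r Y * r X - r X * r Y) {F : Submodule ℚ U}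
  (hF : ∀ b (lam : ℝ →ₗ[ℚ] ℚ), ∀ f ∈ F, r ((D.J b).map lam) f ∈ F)
  (hc : ∀ b b' (lam : ℝ →ₗ[ℚ] ℚ), ∀ f ∈ F, r ((D.J b).map lam) f = r ((D.J b').map lam) f)

include hr hF

theorem conjK (b : B) {X : Matrix β β ℝ} (hX : X ∈ cx (D.K r F)) :
    D.J b * X * D.J b ∈ cx (D.K r F) :=
  conj_mem (fun _ hX _ hY => K_bracket hr hX hY) (J_mem hF b) hX

theorem conjC (b : B) {X : Matrix β β ℝ} (hX : X ∈ cx (D.C r F)) :
    D.J b * X * D.J b ∈ cx (D.C r F) :=
  conj_mem (fun _ hX _ hY => C_bracket hr hX hY) (J_mem hF b) hX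

theorem conjG (b : B) {X : Matrix β β ℝ} (hX : X ∈ cx (D.G r F)) :
    D.J b * X * D.J b ∈ cx (D.G r F) :=
  conj_mem (fun _ hX _ hY => G_bracket hr hX hY) (J_mem hF b) hX

theorem K_nondeg (b : B) {X : Matrix β β ℚ} (hX : X ∈ D.K r F)
    (h : ∀ Y ∈ D.K r F, trace (X * Y) = 0) : X = 0 := by
  have h1 : rc X ∈ cx (D.K r F) := rc_mem hX
  have h2 := conjK hr hF b h1
  have h3 : trace (rc X * (D.J b * rc X * D.J b)) = 0 := by
    refine trace_cx (S := Submodule.span ℚ {X}) ?_ (rc_mem (Submodule.mem_span_singleton_self X)) h2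
    intro Z hZ Y hY
    obtain ⟨a, rfl⟩ := Submodule.mem_span_singleton.1 hZ
    rw [smul_mul_assoc, trace_smul, h Y hY, smul_zero]
  have h4 := eq_zero_of_trace (skew_of_G (cx_mono K_le h1)) b h3
  refine rc_injective ?_
  rw [h4]
  ext i j
  simp [rc]

theorem decomp (b : B) {X : Matrix β β ℚ} (hX : X ∈ D.G r F) :
    ∃ k ∈ D.K r F, ∃ c ∈ D.C r F, X = k + c := by
  have hdisj : Disjoint (D.K r F) ((trF β).orthogonal (D.K r F)) := by
    rw [Submodule.disjoint_def]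
    intro X hX hX'
    refine K_nondeg hr hF b hX fun Y hY => ?_
    have h1 := hX' Y hY
    change trF β Y X = 0 at h1
    rw [trF_apply, trace_mul_comm] at h1
    exact h1
  have hcc : IsCompl (D.K r F) ((trF β).orthogonal (D.K r F)) :=
    (LinearMap.BilinForm.isCompl_orthogonal_iff_disjoint trF_refl).2 hdisj
  obtain ⟨k, hk, c, hcm, hkc⟩ := Submodule.mem_sup.1 (hcc.sup_eq_top ▸ Submodule.mem_top (x := X))
  refine ⟨k, hk, c, ⟨?_, fun Z hZ => ?_⟩, hkc.symm⟩
  · have : c = X - k := by rw [← hkc]; abel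
    rw [this]
    exact Submodule.sub_mem _ hX (K_le hk)
  · exact hcm Z hZ

theorem K_C_comm (b : B) {X Y : Matrix β β ℚ} (hX : X ∈ D.K r F) (hY : Y ∈ D.C r F) :
    X * Y = Y * X := by
  rw [← sub_eq_zero]
  have hmem : X * Y - Y * X ∈ D.K r F := by
    have := (D.K r F).neg_mem (K_bracket hr hY.1 hX)
    rwa [neg_sub] at this
  refine K_nondeg hr hF b hmem fun Z hZ => ?_
  have h := (C_bracket hr (K_le hX) hY).2 Z hZ
  rw [trace_mul_comm]
  exact h

theorem cx_comm (b : B) {X Y : Matrix β β ℝ} (hX : X ∈ cx (D.K r F)) (hY : Y ∈ cx (D.C r F)) :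
    X * Y = Y * X := by
  have h := bracket_mem (U := ⊥) (fun X hX Y hY => by
    rw [K_C_comm hr hF b hX hY, sub_self]
    exact Submodule.zero_mem _) hX hY
  have h2 : cx (⊥ : Submodule ℚ (Matrix β β ℚ)) ≤ ⊥ := by
    refine Submodule.span_le.2 ?_
    rintro _ ⟨A, hA, rfl⟩
    rw [SetLike.mem_coe, Submodule.mem_bot] at hA
    rw [hA, SetLike.mem_coe, Submodule.mem_bot]
    ext i j
    simp [rc]
  rw [← sub_eq_zero]
  exact (Submodule.mem_bot ℝ).1 (h2 h)

theorem cx_decomp (b : B) {X : Matrix β β ℝ} (hX : X ∈ cx (D.G r F)) :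
    ∃ k ∈ cx (D.K r F), ∃ c ∈ cx (D.C r F), X = k + c := by
  have h : cx (D.G r F) ≤ cx (D.K r F) ⊔ cx (D.C r F) := by
    refine Submodule.span_le.2 ?_
    rintro _ ⟨A, hA, rfl⟩
    obtain ⟨k, hk, c, hc, rfl⟩ := decomp hr hF b hA
    rw [rc_add]
    exact Submodule.add_mem_sup (rc_mem hk) (rc_mem hc)
  obtain ⟨k, hk, c, hc, h⟩ := Submodule.mem_sup.1 (h hX)
  exact ⟨k, hk, c, hc, h.symm⟩

end Fam

namespace Fam

variable {U : Type*} [AddCommGroup U] [Module ℚ U] (r : Matrix β β ℚ →ₗ[ℚ] Module.End ℚ U)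
  (F : Submodule ℚ U)

/-- The unitary part at the point `b`: the vectors killed by all elements of the ideal which
anticommute with the complex structure. -/
def N (D : Fam β B) (b : B) : Submodule ℝ (β → ℝ) where
  carrier := {v | ∀ X ∈ cx (D.K r F), D.J b * X = -(X * D.J b) → X *ᵥ v = 0}
  zero_mem' := fun X _ _ => mulVec_zero _
  add_mem' := by
    intro v w hv hw X hX hXJ
    rw [mulVec_add, hv X hX hXJ, hw X hX hXJ, add_zero]
  smul_mem' := by
    intro a v hv X hX hXJ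
    rw [mulVec_smul, hv X hX hXJ, smul_zero]

variable {r F}
variable (hr : ∀ X Y, r (X * Y - Y * X) = r Y * r X - r X * r Y)
  (hF : ∀ b (lam : ℝ →ₗ[ℚ] ℚ), ∀ f ∈ F, r ((D.J b).map lam) f ∈ F)
  (hc : ∀ b b' (lam : ℝ →ₗ[ℚ] ℚ), ∀ f ∈ F, r ((D.J b).map lam) f = r ((D.J b').map lam) f)

include hr hF

theorem odd_mem_K (b : B) {X : Matrix β β ℝ} (hX : X ∈ cx (D.K r F)) :
    odd D b X ∈ cx (D.K r F) :=
  Submodule.smul_mem _ _ (Submodule.add_mem _ hX (conjK hr hF b hX))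

theorem odd_mem_C (b : B) {X : Matrix β β ℝ} (hX : X ∈ cx (D.C r F)) :
    odd D b X ∈ cx (D.C r F) :=
  Submodule.smul_mem _ _ (Submodule.add_mem _ hX (conjC hr hF b hX))

theorem N_stable_K (b : B) {X : Matrix β β ℝ} (hX : X ∈ cx (D.K r F)) {v : β → ℝ}
    (hv : v ∈ N r F D b) : X *ᵥ v ∈ N r F D b := by
  intro Y hY hYJ
  have h1 : X *ᵥ v = (X - odd D b X) *ᵥ v := by
    rw [sub_mulVec, hv _ (odd_mem_K hr hF b hX) (odd_anti b X), sub_zero]
  set Z := X - odd D b X with hZ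
  have hZm : Z ∈ cx (D.K r F) := Submodule.sub_mem _ hX (odd_mem_K hr hF b hX)
  have hZJ : D.J b * Z = Z * D.J b := sub_odd_comm b X
  have h2 : Y * Z - Z * Y ∈ cx (D.K r F) :=
    bracket_mem (fun _ h1 _ h2 => K_bracket hr (K_le h1) h2) hY hZm
  have h3 : D.J b * (Y * Z - Z * Y) = -((Y * Z - Z * Y) * D.J b) := by
    have e1 : D.J b * (Y * Z - Z * Y) = (D.J b * Y) * Z - (D.J b * Z) * Y := by noncomm_ring
    have e2 : (Y * Z - Z * Y) * D.J b = Y * (Z * D.J b) - Z * (Y * D.J b) := by noncomm_ring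
    rw [e1, e2, hYJ, hZJ, ← hZJ]
    have e3 : Y * D.J b = -(D.J b * Y) := by rw [hYJ, neg_neg]
    rw [e3]
    have e4 : Y * (D.J b * Z) = -(D.J b * Y * Z) := by rw [← mul_assoc, e3, neg_mul]
    rw [e4, mul_neg, ← mul_assoc Z, ← hZJ]
    noncomm_ring
  have h4 := hv _ h2 h3
  rw [sub_mulVec, ← mulVec_mulVec, ← mulVec_mulVec, hv Y hY hYJ, mulVec_zero, sub_zero] at h4
  rw [h1]
  exact h4

theorem N_stable_C (b : B) {X : Matrix β β ℝ} (hX : X ∈ cx (D.C r F)) {v : β → ℝ}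
    (hv : v ∈ N r F D b) : X *ᵥ v ∈ N r F D b := by
  intro Y hY hYJ
  rw [mulVec_mulVec, cx_comm hr hF b hY hX, ← mulVec_mulVec, hv Y hY hYJ, mulVec_zero]

theorem N_stable (b : B) {X : Matrix β β ℝ} (hX : X ∈ cx (D.G r F)) {v : β → ℝ}
    (hv : v ∈ N r F D b) : X *ᵥ v ∈ N r F D b := by
  obtain ⟨k, hk, c, hc, rfl⟩ := cx_decomp hr hF b hX
  rw [add_mulVec]
  exact Submodule.add_mem _ (N_stable_K hr hF b hk hv) (N_stable_C hr hF b hc hv)

/-- The image of the odd part of an element of the complementary ideal is in the unitary part. -/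
theorem odd_C_image (b : B) {Y : Matrix β β ℝ} (hY : Y ∈ cx (D.C r F))
    (hYJ : D.J b * Y = -(Y * D.J b)) (v : β → ℝ) : Y *ᵥ v ∈ N r F D b := by
  intro X hX hXJ
  have h1 : D.J b * X - X * D.J b ∈ cx (D.K r F) :=
    bracket_mem (fun _ h1 _ h2 => K_bracket hr h1 h2) (J_mem hF b) hX
  have h2 : D.J b * X - X * D.J b = (2 : ℝ) • (D.J b * X) := by
    rw [two_smul, sub_eq_add_neg, ← hXJ]
  rw [h2] at h1
  have h3 := cx_comm hr hF b h1 hY
  have h4 := cx_comm hr hF b hX hY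
  rw [smul_mul_assoc, mul_smul_comm] at h3
  have h5 : D.J b * X * Y = Y * (D.J b * X) := by
    have := congrArg (fun M => (2 : ℝ)⁻¹ • M) h3
    simpa only [smul_smul, inv_mul_cancel₀ (two_ne_zero (α := ℝ)), one_smul] using this
  have h6 : Y * (D.J b * X) = -(D.J b * X * Y) := by
    have e1 : Y * D.J b = -(D.J b * Y) := by rw [hYJ, neg_neg]
    rw [← mul_assoc, e1, neg_mul, mul_assoc, ← h4, mul_assoc]
  rw [h6] at h5
  have h7 : D.J b * X * Y = 0 := by
    have h8 : (2 : ℝ) • (D.J b * X * Y) = 0 := by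
      rw [two_smul]
      nth_rewrite 2 [h5]
      rw [add_neg_cancel]
    have := congrArg (fun M => (2 : ℝ)⁻¹ • M) h8
    simpa only [smul_smul, inv_mul_cancel₀ (two_ne_zero (α := ℝ)), one_smul, smul_zero] using this
  have h8 : X * Y = 0 := by
    have e1 : D.J b * (D.J b * X * Y) = -(X * Y) := by
      rw [← mul_assoc, ← mul_assoc, D.J_sq b, neg_one_mul, neg_mul]
    rw [h7, mul_zero] at e1
    exact neg_eq_zero.1 e1.symm
  rw [mulVec_mulVec, h8, zero_mulVec]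

include hc in
/-- On the unitary part the complex structure is constant. -/
theorem J_eq_on_N (s t : B) {v : β → ℝ} (hv : v ∈ N r F D t) : D.J s *ᵥ v = D.J t *ᵥ v := by
  have hst := J_sub_mem (D := D) hF hc s t
  have hJN : ∀ {w : β → ℝ}, w ∈ N r F D t → D.J t *ᵥ w ∈ N r F D t :=
    fun hw => N_stable hr hF t (J_mem hF t) hw
  have hJN' : ∀ {w : β → ℝ}, w ∈ N r F D t → D.J s *ᵥ w ∈ N r F D t :=
    fun hw => N_stable hr hF t (J_mem hF s) hw
  -- commutation on the unitary part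
  have hcomm : ∀ {w : β → ℝ}, w ∈ N r F D t →
      D.J t *ᵥ (D.J s *ᵥ w) = D.J s *ᵥ (D.J t *ᵥ w) := by
    intro w hw
    set Z := (D.J s - D.J t) - odd D t (D.J s - D.J t) with hZ
    have hZJ : D.J t * Z = Z * D.J t := sub_odd_comm t _
    have e0 : ∀ {w : β → ℝ}, w ∈ N r F D t → (D.J s - D.J t) *ᵥ w = Z *ᵥ w := by
      intro w hw
      rw [hZ, sub_mulVec (A := D.J s - D.J t), hw _ (odd_mem_K hr hF t hst) (odd_anti t _),
        sub_zero]
    have e1 : D.J t *ᵥ ((D.J s - D.J t) *ᵥ w) = (D.J s - D.J t) *ᵥ (D.J t *ᵥ w) := by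
      rw [e0 hw, e0 (hJN hw), mulVec_mulVec, mulVec_mulVec, hZJ]
    rw [sub_mulVec, sub_mulVec, mulVec_sub] at e1
    exact sub_left_injective e1
  have hsq : ∀ (b : B) (w : β → ℝ), D.J b *ᵥ (D.J b *ᵥ w) = -w := by
    intro b w
    rw [mulVec_mulVec, D.J_sq b, neg_mulVec, one_mulVec]
  -- the vector w
  set w := v + D.J s *ᵥ (D.J t *ᵥ v) with hw
  have hwN : w ∈ N r F D t := Submodule.add_mem _ hv (hJN' (hJN hv))
  have h1 : D.J s *ᵥ (D.J t *ᵥ w) = w := by
    rw [hw, mulVec_add, mulVec_add, hcomm (hJN hv), hsq t, mulVec_neg, mulVec_neg, hsq s, neg_neg]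
    abel
  have h2 : D.J t *ᵥ w = -(D.J s *ᵥ w) := by
    have := congrArg (fun u => D.J s *ᵥ u) h1
    rw [hsq s] at this
    rw [← this, neg_neg]
  have h3 : w = 0 := by
    by_contra hne
    have p1 := D.J_pos t w hne
    have p2 := D.J_pos s w hne
    rw [h2, neg_dotProduct] at p1
    linarith
  have h4 : D.J s *ᵥ (D.J t *ᵥ v) = -v := by
    rw [hw] at h3
    exact eq_neg_of_add_eq_zero_right h3
  have h5 := congrArg (fun u => D.J s *ᵥ u) h4
  rw [hsq s, mulVec_neg] at h5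
  exact (neg_injective h5).symm

end Fam

end Pool.Agent.E8helper1.NU
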