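import Mathlib
import Pool.Agent.E8helper1.NU.Struct3

/-!
# The projection to the unitary part is an endomorphism
-/

set_option autoImplicit false
set_option linter.unusedSectionVars false

namespace Pool.Agent.E8helper1.NU

open Matrix

variable {β : Type*} [Fintype β] [DecidableEq β] {B : Type*} {D : Fam β B}

/-- The bilinear form given by the positive definite matrix. -/
noncomputable def bH (D : Fam β B) (b : B) : LinearMap.BilinForm ℝ (β → ℝ) :=
  LinearMap.mk₂ ℝ (fun u v => u ⬝ᵥ (D.H b *ᵥ v))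
    (fun u v w => add_dotProduct _ _ _)
    (fun a u v => smul_dotProduct _ _ _)
    (fun u v w => by rw [mulVec_add, dotProduct_add])
    (fun a u v => by rw [mulVec_smul, dotProduct_smul])

theorem bH_apply (b : B) (u v : β → ℝ) : bH D b u v = u ⬝ᵥ (D.H b *ᵥ v) := rfl

theorem bH_symm (b : B) (u v : β → ℝ) : bH D b u v = bH D b v u := by
  rw [bH_apply, bH_apply, dotProduct_comm v, dotProduct_mulVec, ← mulVec_transpose, D.H_symm]

theorem bH_refl (b : B) : (bH D b).IsRefl := by
  intro u v h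
  rw [bH_symm]
  exact h

theorem bH_pos (b : B) {v : β → ℝ} (hv : v ≠ 0) : 0 < bH D b v v := by
  rw [bH_apply, Fam.H_dot]
  exact D.J_pos b v hv

namespace Fam

variable {U : Type*} [AddCommGroup U] [Module ℚ U] {r : Matrix β β ℚ →ₗ[ℚ] Module.End ℚ U}
  {F : Submodule ℚ U}

theorem N_compl (b : B) : IsCompl (N r F D b) ((bH D b).orthogonal (N r F D b)) := by
  refine (LinearMap.BilinForm.isCompl_orthogonal_iff_disjoint (bH_refl b)).2 ?_
  rw [Submodule.disjoint_def]
  intro v hv hv'
  by_contra hne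
  have h1 := hv' v hv
  change bH D b v v = 0 at h1
  exact absurd h1 (bH_pos b hne).ne'

/-- The orthogonal projection to the unitary part. -/
noncomputable def prj (r : Matrix β β ℚ →ₗ[ℚ] Module.End ℚ U) (F : Submodule ℚ U) (D : Fam β B)
    (b : B) : (β → ℝ) →ₗ[ℝ] (β → ℝ) :=
  (N r F D b).projection _ (N_compl b)

/-- The matrix of the orthogonal projection. -/
noncomputable def eN (r : Matrix β β ℚ →ₗ[ℚ] Module.End ℚ U) (F : Submodule ℚ U) (D : Fam β B)
    (b : B) : Matrix β β ℝ := LinearMap.toMatrix' (prj r F D b)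

theorem eN_mulVec (b : B) (v : β → ℝ) : eN r F D b *ᵥ v = prj r F D b v :=
  LinearMap.toMatrix'_mulVec _ _

theorem prj_mem (b : B) (v : β → ℝ) : prj r F D b v ∈ N r F D b :=
  Submodule.projection_apply_mem _ v

theorem prj_of_mem (b : B) {v : β → ℝ} (hv : v ∈ N r F D b) : prj r F D b v = v :=
  Submodule.projection_apply_of_mem_left _ hv

theorem sub_prj_mem (b : B) (v : β → ℝ) :
    v - prj r F D b v ∈ (bH D b).orthogonal (N r F D b) := by
  rw [← Submodule.projection_apply_eq_zero_iff (N_compl b)]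
  change prj r F D b (v - prj r F D b v) = 0
  rw [map_sub, prj_of_mem b (prj_mem b v), sub_self]

variable (hr : ∀ X Y, r (X * Y - Y * X) = r Y * r X - r X * r Y)
  (hF : ∀ b (lam : ℝ →ₗ[ℚ] ℚ), ∀ f ∈ F, r ((D.J b).map lam) f ∈ F)
  (hc : ∀ b b' (lam : ℝ →ₗ[ℚ] ℚ), ∀ f ∈ F, r ((D.J b).map lam) f = r ((D.J b').map lam) f)

include hr hF

theorem perp_stable (b : B) {X : Matrix β β ℝ} (hX : X ∈ cx (D.G r F)) {v : β → ℝ}
    (hv : v ∈ (bH D b).orthogonal (N r F D b)) :
    X *ᵥ v ∈ (bH D b).orthogonal (N r F D b) := by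
  intro u hu
  change bH D b u (X *ᵥ v) = 0
  rw [bH_symm, bH_apply]
  have h1 : (X *ᵥ v) ⬝ᵥ (D.H b *ᵥ u) = v ⬝ᵥ ((Xᵀ * D.H b) *ᵥ u) := by
    rw [← mulVec_mulVec, dotProduct_mulVec v, vecMul_transpose]
  rw [h1, skew_H (skew_of_G hX) b, ← mulVec_mulVec]
  have h2 : (D.J b * X * D.J b) *ᵥ u ∈ N r F D b := N_stable hr hF b (conjG hr hF b hX) hu
  have h3 := hv _ h2
  change bH D b _ v = 0 at h3
  rw [bH_symm, bH_apply] at h3
  exact h3

theorem eN_comm (b : B) {X : Matrix β β ℝ} (hX : X ∈ cx (D.G r F)) :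
    X * eN r F D b = eN r F D b * X := by
  apply Matrix.ext_of_mulVec_single
  intro j
  rw [← mulVec_mulVec, ← mulVec_mulVec, eN_mulVec, eN_mulVec]
  generalize (Pi.single j 1 : β → ℝ) = v
  have h1 : X *ᵥ v = X *ᵥ prj r F D b v + X *ᵥ (v - prj r F D b v) := by
    rw [← mulVec_add]
    congr 1
    abel
  have h2 : prj r F D b (X *ᵥ (v - prj r F D b v)) = 0 :=
    (Submodule.projection_apply_eq_zero_iff (N_compl b)).2
      (perp_stable hr hF b hX (sub_prj_mem b v))
  rw [h1, map_add, h2, add_zero, prj_of_mem b (N_stable hr hF b hX (prj_mem b v))]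

omit hr hF in
/-- A real matrix commutes with a rational matrix if its images under the rational functionals do. -/
theorem lam_comm {e : Matrix β β ℝ} {Y : Matrix β β ℚ} (h : rc Y * e = e * rc Y)
    (lam : ℝ →ₗ[ℚ] ℚ) : Y * e.map lam = e.map lam * Y := by
  ext i j
  have h1 := congrFun (congrFun h i) j
  rw [Matrix.mul_apply, Matrix.mul_apply] at h1
  have h2 := congrArg lam h1
  rw [map_sum, map_sum] at h2
  rw [Matrix.mul_apply, Matrix.mul_apply]
  have e1 : ∀ k, lam (e i k * rc Y k j) = (e.map lam) i k * Y k j := by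
    intro k
    rw [rc_apply, mul_comm, ← Rat.smul_def, map_smul, smul_eq_mul, mul_comm]
    rfl
  have e2 : ∀ k, lam (rc Y i k * e k j) = Y i k * (e.map lam) k j := by
    intro k
    rw [rc_apply, ← Rat.smul_def, map_smul, smul_eq_mul]
    rfl
  rw [Finset.sum_congr rfl (fun k _ => e1 k), Finset.sum_congr rfl (fun k _ => e2 k)] at h2
  exact h2

omit hr hF in
/-- The commutant of a rational matrix. -/
def commutant (P : Matrix β β ℚ) : Submodule ℚ (Matrix β β ℚ) where
  carrier := {Y | Y * P = P * Y}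
  zero_mem' := by simp
  add_mem' := by
    intro X Y hX hY
    change (X + Y) * P = P * (X + Y)
    rw [add_mul, mul_add, hX, hY]
  smul_mem' := by
    intro a X hX
    change (a • X) * P = P * (a • X)
    rw [smul_mul_assoc, mul_smul_comm, hX]

omit hr hF in
theorem comm_of_commutant {P : Matrix β β ℚ} {X : Matrix β β ℝ} (hX : X ∈ cx (commutant P)) :
    X * rc P = rc P * X := by
  refine Submodule.span_induction (p := fun X _ => X * rc P = rc P * X) ?_ ?_ ?_ ?_ hX
  · rintro _ ⟨A, hA, rfl⟩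
    have hA' : A * P = P * A := hA
    rw [← rc_mul, ← rc_mul, hA']
  · simp
  · intro X Y _ _ h1 h2
    rw [add_mul, mul_add, h1, h2]
  · intro c X _ h1
    rw [smul_mul_assoc, mul_smul_comm, h1]

theorem eN_mem (b : B) : eN r F D b ∈ cx D.E := by
  rw [mem_cx_iff]
  intro lam b'
  refine comm_of_commutant (mem_cx_iff.2 fun mu => ?_)
  have h1 : (D.J b').map mu ∈ D.G r F := mem_cx_iff.1 (J_mem hF b') mu
  exact lam_comm (eN_comm hr hF b (rc_mem h1)) lam

/-- There is no unitary part. -/
def _root_.Pool.Agent.E8helper1.NU.NoUnitary (D : Fam β B) : Prop :=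
  ∀ e ∈ cx D.E, (∀ s t, D.J s * e = D.J t * e) → e = 0

include hc in
theorem N_eq_zero (hun : NoUnitary D) (b : B) {v : β → ℝ} (hv : v ∈ N r F D b) : v = 0 := by
  have h1 : eN r F D b = 0 := by
    refine hun _ (eN_mem hr hF b) fun s t => ?_
    have h : ∀ s, D.J s * eN r F D b = D.J b * eN r F D b := by
      intro s
      apply Matrix.ext_of_mulVec_single
      intro j
      rw [← mulVec_mulVec, ← mulVec_mulVec, eN_mulVec]
      exact J_eq_on_N hr hF hc s b (prj_mem b _)
    rw [h s, h t]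
  have h2 := eN_mulVec (r := r) (F := F) (D := D) b v
  rw [h1, zero_mulVec, prj_of_mem b hv] at h2
  exact h2.symm

include hc in
/-- Without unitary part the complementary ideal consists of endomorphisms. -/
theorem C_le_E (hun : NoUnitary D) : D.C r F ≤ D.E := by
  intro Y hY b
  have h1 : odd D b (rc Y) = 0 := by
    apply Matrix.ext_of_mulVec_single
    intro j
    rw [zero_mulVec]
    exact N_eq_zero hr hF hc hun b (odd_C_image hr hF b (odd_mem_C hr hF b (rc_mem hY))
      (odd_anti b _) _)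
  have h2 := sub_odd_comm (D := D) b (rc Y)
  rwa [h1, sub_zero] at h2

include hc in
/-- If the traces of the central endomorphisms on the tangent spaces are real, the elements of `F`
are killed by the complex structures. -/
theorem kills (hun : NoUnitary D)
    (hcen : ∀ Y ∈ D.E, (∀ P ∈ D.E, Y * P = P * Y) → Yᵀ * D.Om = -(D.Om * Y) →
      ∀ b, trace (D.J b * rc Y) = 0)
    (b : B) (lam : ℝ →ₗ[ℚ] ℚ) {f : U} (hf : f ∈ F) : r ((D.J b).map lam) f = 0 := by
  obtain ⟨k, hk, c, hcm, hkc⟩ := cx_decomp hr hF b (J_mem hF b)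
  have hc0 : c = 0 := by
    refine eq_zero_of_trace (skew_of_G (cx_mono C_le hcm)) b ?_
    have h1 : ∀ Y ∈ D.C r F, trace (c * rc Y) = 0 := by
      intro Y hY
      have e1 : trace (D.J b * rc Y) = 0 :=
        hcen Y (C_le_E hr hF hc hun hY) (fun P hP => hY.1.2.1 P hP) hY.1.1 b
      have e2 : trace (k * rc Y) = 0 :=
        trace_cx (S := D.K r F) (T := D.C r F) (fun X hX Y hY => hY.2 X hX) hk (rc_mem hY)
      rw [hkc, add_mul, trace_add, e2, zero_add] at e1
      exact e1
    have h2 := conjC hr hF b hcm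
    refine Submodule.span_induction (p := fun Z _ => trace (c * Z) = 0) ?_ ?_ ?_ ?_ h2
    · rintro _ ⟨A, hA, rfl⟩
      exact h1 A hA
    · simp
    · intro X Y _ _ h1 h2
      rw [mul_add, trace_add, h1, h2, add_zero]
    · intro a X _ h1
      rw [mul_smul_comm, trace_smul, h1, smul_zero]
  rw [hc0, add_zero] at hkc
  rw [hkc]
  exact (mem_cx_iff.1 hk lam).2 f hf

end Fam

end Pool.Agent.E8helper1.NU
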