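import Mathlib
import Pool.Agent.E8helper1.NU.Defs
import Pool.Agent.E8helper1.NU.Struct4
import Pool.Agent.W437.HC.Hodge

/-!
# Forms in coordinates
-/

set_option autoImplicit false
set_option linter.unusedSectionVars false

namespace Pool.Agent.E8helper1.NU

open Matrix Module TensorProduct Pool.Agent.H204R3.CM Pool.Agent.H204R3.GP Pool.Agent.W437.HC

section eval

variable {K X : Type*} [Field K] [AddCommGroup X] [Module K X] {ι κ : Type*} [Fintype ι]
  [DecidableEq ι] [Fintype κ] [DecidableEq κ]

/-- The value of a multilinear form in terms of its coefficients. -/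
theorem eval_eq (f : MultilinearMap K (fun _ : κ => X) K) (e : ι → X) (x : κ → ι → K) :
    f (fun l => ∑ a, x l a • e a) = evalF (fun I => f (fun l => e (I l))) x := by
  rw [MultilinearMap.map_sum]
  unfold evalF
  refine Finset.sum_congr rfl fun I _ => ?_
  rw [MultilinearMap.map_smul_univ, smul_eq_mul, mul_comm]

/-- The derivative of a rotation at zero. -/
theorem hasDeriv_rotate (J : Matrix ι ι ℝ) (c : (κ → ι) → ℝ) (x : κ → ι → ℝ) :
    HasDerivAt (fun θ : ℝ => evalF c (fun k => Real.cos θ • x k + Real.sin θ • (J *ᵥ x k)))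
      (evalF (act J c) x) 0 := by
  rw [evalF_act]
  have h1 : HasDerivAt (fun θ : ℝ =>
      evalF c (fun k => Real.cos θ • x k + Real.sin θ • (J *ᵥ x k)))
      (∑ I, c I * ∑ k, (∏ l ∈ Finset.univ.erase k, (Real.cos 0 * x l (I l) +
        Real.sin 0 * (J *ᵥ x l) (I l))) • (-Real.sin 0 * x k (I k) +
          Real.cos 0 * (J *ᵥ x k) (I k))) 0 := by
    unfold evalF
    refine HasDerivAt.fun_sum fun I _ => ?_
    refine HasDerivAt.const_mul _ ?_
    refine HasDerivAt.fun_finsetProd fun k _ => ?_
    exact ((Real.hasDerivAt_cos 0).mul_const _).add ((Real.hasDerivAt_sin 0).mul_const _)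
  refine h1.congr_deriv ?_
  unfold evalF
  rw [Finset.sum_comm]
  refine Finset.sum_congr rfl fun I _ => ?_
  rw [Finset.mul_sum]
  refine Finset.sum_congr rfl fun k _ => ?_
  rw [← Finset.mul_prod_erase _ _ (Finset.mem_univ k), Function.update_self]
  have h2 : ∏ l ∈ Finset.univ.erase k, Function.update x k (J *ᵥ (x k)) l (I l) =
      ∏ l ∈ Finset.univ.erase k, x l (I l) := by
    refine Finset.prod_congr rfl fun l hl => ?_
    rw [Function.update_of_ne (Finset.ne_of_mem_erase hl)]
  rw [h2]
  simp only [Real.cos_zero, Real.sin_zero, one_mul, zero_mul, add_zero, neg_zero, zero_add,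
    smul_eq_mul]
  ring

/-- A form killed by a complex structure is invariant under rotations. -/
theorem rotate_invariant {J : Matrix ι ι ℝ} (hJ : J * J = -1) {c : (κ → ι) → ℝ}
    (hc : act J c = 0) (θ : ℝ) (x : κ → ι → ℝ) :
    evalF c (fun k => Real.cos θ • x k + Real.sin θ • (J *ᵥ x k)) = evalF c x := by
  set g : ℝ → ℝ := fun θ => evalF c (fun k => Real.cos θ • x k + Real.sin θ • (J *ᵥ x k)) with hg
  have hd : ∀ θ₀, HasDerivAt g 0 θ₀ := by
    intro θ₀
    have h1 := hasDeriv_rotate J c (fun k => Real.cos θ₀ • x k + Real.sin θ₀ • (J *ᵥ x k))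
    rw [hc, evalF_zero] at h1
    have h2 : HasDerivAt (fun θ : ℝ => θ - θ₀) 1 θ₀ := (hasDerivAt_id θ₀).sub_const θ₀
    have h3 := HasDerivAt.scomp_of_eq (h := fun θ : ℝ => θ - θ₀) θ₀ h1 h2 (by simp)
    rw [smul_zero] at h3
    refine h3.congr_of_eventuallyEq (Filter.Eventually.of_forall fun θ => ?_)
    simp only [hg, Function.comp]
    congr 1
    funext k
    have e1 : Real.cos θ = Real.cos (θ - θ₀) * Real.cos θ₀ - Real.sin (θ - θ₀) * Real.sin θ₀ := by
      rw [← Real.cos_add, sub_add_cancel]
    have e2 : Real.sin θ = Real.sin (θ - θ₀) * Real.cos θ₀ + Real.cos (θ - θ₀) * Real.sin θ₀ := by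
      rw [← Real.sin_add, sub_add_cancel]
    rw [mulVec_add, mulVec_smul, mulVec_smul, mulVec_mulVec, hJ, neg_mulVec, one_mulVec, e1, e2]
    module
  have h4 : g θ = g 0 := is_const_of_deriv_eq_zero (fun y => (hd y).differentiableAt)
    (fun y => (hd y).deriv) θ 0
  have h5 : g 0 = evalF c x := by
    simp only [hg, Real.cos_zero, Real.sin_zero, one_smul, zero_smul, add_zero]
  rw [← h5, ← h4]

end eval

/-- The diagonal action of a matrix on `n` copies of a space. -/
def bd {β K : Type*} [Fintype β] [DecidableEq β] [Field K] (n : ℕ) :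
    Matrix β β K →ₗ[K] Matrix (Fin n × β) (Fin n × β) K where
  toFun X := Matrix.of fun p q => if p.1 = q.1 then X p.2 q.2 else 0
  map_add' X Y := by
    ext p q
    simp only [Matrix.of_apply, Matrix.add_apply]
    split_ifs <;> simp
  map_smul' a X := by
    ext p q
    simp only [Matrix.of_apply, Matrix.smul_apply, RingHom.id_apply]
    split_ifs <;> simp

theorem bd_apply {β K : Type*} [Fintype β] [DecidableEq β] [Field K] {n : ℕ} (X : Matrix β β K)
    (p q : Fin n × β) : bd n X p q = if p.1 = q.1 then X p.2 q.2 else 0 := rfl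

theorem bd_mul {β K : Type*} [Fintype β] [DecidableEq β] [Field K] {n : ℕ} (X Y : Matrix β β K) :
    bd n (X * Y) = bd n X * bd n Y := by
  ext p q
  rw [Matrix.mul_apply, Fintype.sum_prod_type, bd_apply]
  simp only [bd_apply]
  rw [Finset.sum_eq_single p.1]
  · by_cases h : p.1 = q.1
    · simp only [h, if_true, Matrix.mul_apply]
    · simp only [h, if_true, if_false, mul_zero, Finset.sum_const_zero]
  · intro j _ hj
    refine Finset.sum_eq_zero fun i _ => ?_
    rw [if_neg (Ne.symm hj), zero_mul]
  · intro h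
    exact absurd (Finset.mem_univ _) h

theorem bd_one {β K : Type*} [Fintype β] [DecidableEq β] [Field K] {n : ℕ} :
    bd n (1 : Matrix β β K) = 1 := by
  ext p q
  rw [bd_apply, Matrix.one_apply, Matrix.one_apply]
  by_cases h1 : p.1 = q.1
  · by_cases h2 : p.2 = q.2
    · rw [if_pos h1, if_pos h2, if_pos (Prod.ext h1 h2)]
    · rw [if_pos h1, if_neg h2, if_neg (fun h => h2 (congrArg Prod.snd h))]
  · rw [if_neg h1, if_neg (fun h => h1 (congrArg Prod.fst h))]

theorem bd_map {β : Type*} [Fintype β] [DecidableEq β] {n : ℕ} (X : Matrix β β ℝ)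
    (lam : ℝ →ₗ[ℚ] ℚ) : (bd n X).map lam = bd n (X.map lam) := by
  ext p q
  rw [Matrix.map_apply, bd_apply, bd_apply]
  split_ifs
  · rfl
  · exact map_zero lam

/-- The representation on the coefficients of forms. -/
def rep (β : Type*) [Fintype β] [DecidableEq β] (n : ℕ) (κ : Type*) [Fintype κ] [DecidableEq κ] :
    Matrix β β ℚ →ₗ[ℚ] Module.End ℚ ((κ → Fin n × β) → ℚ) where
  toFun X :=
    { toFun := fun c => act (bd n X) c
      map_add' := fun c d => act_add_right _ c d
      map_smul' := fun a c => act_smul_right a _ c }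
  map_add' X Y := by
    refine LinearMap.ext fun c => ?_
    change act (bd n (X + Y)) c = act (bd n X) c + act (bd n Y) c
    rw [map_add, act_add_left]
  map_smul' a X := by
    refine LinearMap.ext fun c => ?_
    change act (bd n (a • X)) c = a • act (bd n X) c
    rw [map_smul, act_smul_left]

theorem rep_apply {β : Type*} [Fintype β] [DecidableEq β] {n : ℕ} {κ : Type*} [Fintype κ]
    [DecidableEq κ] (X : Matrix β β ℚ) (c : (κ → Fin n × β) → ℚ) :
    rep β n κ X c = act (bd n X) c := rfl

theorem rep_bracket {β : Type*} [Fintype β] [DecidableEq β] {n : ℕ} {κ : Type*} [Fintype κ]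
    [DecidableEq κ] (X Y : Matrix β β ℚ) :
    rep β n κ (X * Y - Y * X) = rep β n κ Y * rep β n κ X - rep β n κ X * rep β n κ Y := by
  refine LinearMap.ext fun c => ?_
  rw [LinearMap.sub_apply, Module.End.mul_apply, Module.End.mul_apply]
  simp only [rep_apply]
  rw [map_sub, bd_mul, bd_mul, act_comm]

end Pool.Agent.E8helper1.NU
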