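import Mathlib
import Pool.Agent.E8helper1.NU.Coord

/-!
# Matrices of the complex structures
-/

set_option autoImplicit false
set_option linter.unusedSectionVars false

namespace Pool.Agent.E8helper1.NU

open Matrix Module TensorProduct Pool.Agent.H204R3.CM Pool.Agent.H204R3.GP Pool.Agent.W437.HC
  Pool.Agent.W516.MTD

section single

variable {W T β : Type} [AddCommGroup W] [Module ℚ W] [AddCommGroup T] [Module ℂ T] [Fintype β]
  [DecidableEq β]

theorem per_smul (per : W →+ T) (q : ℚ) (w : W) : per (q • w) = (q : ℝ) • per w := by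
  have h := map_ratCast_smul per ℚ ℝ q w
  rwa [Rat.cast_id] at h

theorem per_sum (per : W →+ T) (b0 : Basis β ℚ W) (w : W) :
    per w = ∑ i, ((b0.repr w i : ℚ) : ℝ) • per (b0 i) := by
  conv_lhs => rw [← b0.sum_repr w]
  rw [map_sum]
  exact Finset.sum_congr rfl fun i _ => per_smul per _ _

/-- A basis of the homology is mapped to a real basis of the tangent space. -/
theorem exists_real_basis {per : W →+ T} (hper : IsRationalStructure per)
    (b0 : Basis (Fin (finrank ℚ W)) ℚ W) :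
    ∃ bT : Basis (Fin (finrank ℚ W)) ℝ T, ∀ i, bT i = per (b0 i) := by
  obtain ⟨b1, b1', h1⟩ := hper
  set v : Fin (finrank ℚ W) → T := fun i => per (b0 i) with hv
  have h2 : b1'.toMatrix v = rc (b1.toMatrix b0) := by
    ext i j
    rw [Basis.toMatrix_apply, rc_apply, Basis.toMatrix_apply, hv]
    simp only
    rw [per_sum per b1 (b0 j)]
    simp only [← h1]
    rw [Basis.repr_sum_self b1' (fun i => ((b1.repr (b0 j) i : ℚ) : ℝ))]
  have h3 : IsUnit (b1'.det v) := by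
    rw [Basis.det_apply, h2]
    have h4 : b1.toMatrix b0 * b0.toMatrix b1 = 1 := b1.toMatrix_mul_toMatrix_flip b0
    have h5 : rc (b1.toMatrix b0) * rc (b0.toMatrix b1) = 1 := by
      rw [← rc_mul, h4]
      ext i j
      simp [rc, Matrix.one_apply, apply_ite]
    exact (Matrix.isUnit_iff_isUnit_det _).1 (IsUnit.of_mul_eq_one _ h5)
  obtain ⟨h6, h7⟩ := (Module.Basis.is_basis_iff_det b1').2 h3
  exact ⟨Basis.mk h6 h7.ge, fun i => Basis.mk_apply h6 h7.ge i⟩

/-- Multiplication by `i`. -/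
noncomputable def mulI (T : Type) [AddCommGroup T] [Module ℂ T] : T →ₗ[ℝ] T :=
  ((Complex.I • (LinearMap.id : T →ₗ[ℂ] T))).restrictScalars ℝ

theorem mulI_apply (x : T) : mulI T x = Complex.I • x := rfl

variable (bT : Basis β ℝ T)

/-- The matrix of the complex structure. -/
noncomputable def JM : Matrix β β ℝ := LinearMap.toMatrix bT bT (mulI T)

theorem JM_sq : JM bT * JM bT = -1 := by
  unfold JM
  rw [← LinearMap.toMatrix_mul]
  have h : mulI T * mulI T = -1 := by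
    refine LinearMap.ext fun x => ?_
    rw [Module.End.mul_apply, mulI_apply, mulI_apply, smul_smul, Complex.I_mul_I, neg_smul, one_smul]
    rfl
  rw [h, map_neg]
  congr 1
  exact LinearMap.toMatrix_one bT

theorem I_smul_sum (x : β → ℝ) :
    Complex.I • ∑ i, x i • bT i = ∑ i, (JM bT *ᵥ x) i • bT i := by
  have h1 : Complex.I • ∑ i, x i • bT i = mulI T (∑ i, x i • bT i) := rfl
  have h2 : ∀ j, mulI T (bT j) = ∑ i, JM bT i j • bT i := by
    intro j
    conv_lhs => rw [← bT.sum_repr (mulI T (bT j))]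
    refine Finset.sum_congr rfl fun i _ => ?_
    unfold JM
    rw [LinearMap.toMatrix_apply]
  rw [h1, map_sum]
  simp only [map_smul, h2, Finset.smul_sum, smul_smul]
  rw [Finset.sum_comm]
  refine Finset.sum_congr rfl fun i _ => ?_
  rw [← Finset.sum_smul]
  congr 1
  simp only [mulVec, dotProduct]
  exact Finset.sum_congr rfl fun j _ => mul_comm _ _

theorem sum_inj {x y : β → ℝ} (h : ∑ i, x i • bT i = ∑ i, y i • bT i) : x = y := by
  have h1 : ⇑(bT.repr (∑ i, x i • bT i)) = ⇑(bT.repr (∑ i, y i • bT i)) := by rw [h]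
  rwa [Basis.repr_sum_self bT x, Basis.repr_sum_self bT y] at h1

variable {bT}
variable {per : W →+ T} {b0 : Basis β ℚ W} (hb : ∀ i, bT i = per (b0 i))

/-- The matrix of the form. -/
noncomputable def OmM (b0 : Basis β ℚ W) (ω₀ : W →ₗ[ℚ] W →ₗ[ℚ] ℚ) : Matrix β β ℚ :=
  Matrix.of fun i j => ω₀ (b0 i) (b0 j)

include hb

theorem E_eq {ω₀ : W →ₗ[ℚ] W →ₗ[ℚ] ℚ} {E : T →ₗ[ℝ] T →ₗ[ℝ] ℝ}
    (hE : ∀ x y, E (per x) (per y) = ω₀ x y) (x y : β → ℝ) :
    E (∑ i, x i • bT i) (∑ j, y j • bT j) = x ⬝ᵥ (rc (OmM b0 ω₀) *ᵥ y) := by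
  have e1 : E (∑ i, x i • bT i) = ∑ i, x i • E (bT i) := by
    rw [map_sum]
    simp only [map_smul]
  have e2 : ∀ i, E (bT i) (∑ j, y j • bT j) = ∑ j, y j * E (bT i) (bT j) := by
    intro i
    rw [map_sum]
    simp only [map_smul, smul_eq_mul]
  rw [e1, LinearMap.sum_apply]
  simp only [LinearMap.smul_apply, smul_eq_mul, dotProduct, mulVec, e2]
  refine Finset.sum_congr rfl fun i _ => ?_
  congr 1
  refine Finset.sum_congr rfl fun j _ => ?_
  rw [hb, hb, hE, mul_comm]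
  rfl

theorem Om_skew {ω₀ : W →ₗ[ℚ] W →ₗ[ℚ] ℚ} (hω : IsRiemannForm per ω₀) :
    (OmM b0 ω₀)ᵀ = -OmM b0 ω₀ := by
  obtain ⟨E, hE, -, halt, -⟩ := hω
  have h1 : ∀ x, ω₀ x x = 0 := by
    intro x
    have := hE x x
    rw [halt] at this
    exact_mod_cast this.symm
  ext i j
  rw [Matrix.transpose_apply, Matrix.neg_apply]
  change ω₀ (b0 j) (b0 i) = -ω₀ (b0 i) (b0 j)
  have h2 := h1 (b0 i + b0 j)
  simp only [map_add, LinearMap.add_apply, h1, zero_add, add_zero] at h2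
  linarith

theorem J_sp' {ω₀ : W →ₗ[ℚ] W →ₗ[ℚ] ℚ} (hω : IsRiemannForm per ω₀) :
    (JM bT)ᵀ * rc (OmM b0 ω₀) = -(rc (OmM b0 ω₀) * JM bT) := by
  obtain ⟨E, hE, hinv, -, -⟩ := hω
  have h1 : ∀ x y : β → ℝ, (JM bT *ᵥ x) ⬝ᵥ (rc (OmM b0 ω₀) *ᵥ y) =
      -(x ⬝ᵥ (rc (OmM b0 ω₀) *ᵥ (JM bT *ᵥ y))) := by
    intro x y
    rw [← E_eq hb hE, ← E_eq hb hE, ← I_smul_sum, ← I_smul_sum]
    have h2 := hinv Complex.I (by simp) (∑ i, x i • bT i) (Complex.I • ∑ i, y i • bT i)
    rw [smul_smul, Complex.I_mul_I, neg_smul, one_smul, map_neg] at h2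
    rw [← h2, neg_neg]
  apply Matrix.ext_of_mulVec_single
  intro j
  refine dotProduct_eq _ _ fun u => ?_
  rw [dotProduct_comm, dotProduct_comm _ u]
  have h2 := h1 u (Pi.single j 1)
  rw [neg_mulVec, dotProduct_neg, ← mulVec_mulVec, ← mulVec_mulVec, ← h2, dotProduct_mulVec u,
    vecMul_transpose]

theorem J_pos' {ω₀ : W →ₗ[ℚ] W →ₗ[ℚ] ℚ} (hω : IsRiemannForm per ω₀) {v : β → ℝ} (hv : v ≠ 0) :
    0 < (JM bT *ᵥ v) ⬝ᵥ (rc (OmM b0 ω₀) *ᵥ v) := by
  obtain ⟨E, hE, -, -, hpos⟩ := hω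
  rw [← E_eq hb hE, ← I_smul_sum]
  refine hpos _ fun h => hv ?_
  refine sum_inj bT ?_
  rw [h]
  simp

/-- The matrix of an extension of a rational endomorphism. -/
theorem ext_apply {Q : W →ₗ[ℚ] W} {Q' : T →ₗ[ℝ] T} (hQ : ∀ w, Q' (per w) = per (Q w))
    (x : β → ℝ) : Q' (∑ i, x i • bT i) =
      ∑ i, (rc (LinearMap.toMatrix b0 b0 Q) *ᵥ x) i • bT i := by
  have h2 : ∀ j, Q' (bT j) = ∑ i, rc (LinearMap.toMatrix b0 b0 Q) i j • bT i := by
    intro j
    rw [hb, hQ, per_sum per b0]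
    refine Finset.sum_congr rfl fun i _ => ?_
    rw [rc_apply, LinearMap.toMatrix_apply, hb]
  rw [map_sum]
  simp only [map_smul, h2, Finset.smul_sum, smul_smul]
  rw [Finset.sum_comm]
  refine Finset.sum_congr rfl fun i _ => ?_
  rw [← Finset.sum_smul]
  congr 1
  simp only [mulVec, dotProduct]
  exact Finset.sum_congr rfl fun j _ => mul_comm _ _

theorem comm_of_isHodgeEnd {Q : W →ₗ[ℚ] W} (hQ : IsHodgeEnd per Q) :
    JM bT * rc (LinearMap.toMatrix b0 b0 Q) = rc (LinearMap.toMatrix b0 b0 Q) * JM bT := by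
  obtain ⟨Q', hQ'⟩ := hQ
  apply Matrix.ext_of_mulVec_single
  intro j
  rw [← mulVec_mulVec, ← mulVec_mulVec]
  refine sum_inj bT ?_
  have h := ext_apply (Q' := Q'.restrictScalars ℝ) hb hQ'
  rw [← I_smul_sum, ← h, ← h, ← I_smul_sum]
  exact (map_smul Q' _ _).symm

omit hb in
/-- A real linear map that commutes with `i` is complex linear. -/
def toComplex (Q' : T →ₗ[ℝ] T) (h : ∀ x, Q' (Complex.I • x) = Complex.I • Q' x) : T →ₗ[ℂ] T where
  toFun := Q'
  map_add' := Q'.map_add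
  map_smul' z x := by
    have h1 : ∀ y : T, z • y = z.re • y + z.im • (Complex.I • y) := by
      intro y
      conv_lhs => rw [← Complex.re_add_im z]
      rw [add_smul, mul_smul]
      rfl
    rw [RingHom.id_apply, h1 x, h1 (Q' x), map_add, map_smul, map_smul, h]

theorem isHodgeEnd_of_comm {Q : Matrix β β ℚ} (h : JM bT * rc Q = rc Q * JM bT) :
    IsHodgeEnd per (Matrix.toLin b0 b0 Q) := by
  set Q' : T →ₗ[ℝ] T := Matrix.toLin bT bT (rc Q) with hQ'
  have h1 : ∀ x : β → ℝ, Q' (∑ i, x i • bT i) = ∑ i, (rc Q *ᵥ x) i • bT i := by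
    intro x
    have h2 : ∀ j, Q' (bT j) = ∑ i, rc Q i j • bT i := fun j => Matrix.toLin_self bT bT (rc Q) j
    rw [map_sum]
    simp only [map_smul, h2, Finset.smul_sum, smul_smul]
    rw [Finset.sum_comm]
    refine Finset.sum_congr rfl fun i _ => ?_
    rw [← Finset.sum_smul]
    congr 1
    simp only [mulVec, dotProduct]
    exact Finset.sum_congr rfl fun j _ => mul_comm _ _
  refine ⟨toComplex Q' fun x => ?_, fun w => ?_⟩
  · have hx : x = ∑ i, (bT.repr x) i • bT i := (bT.sum_repr x).symm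
    rw [hx, I_smul_sum, h1, h1, I_smul_sum, mulVec_mulVec, mulVec_mulVec, h]
  · change Q' (per w) = _
    rw [per_sum per b0 w, per_sum per b0 (Matrix.toLin b0 b0 Q w)]
    have h3 : ∀ i, per (b0 i) = bT i := fun i => (hb i).symm
    simp only [h3]
    rw [h1]
    refine Finset.sum_congr rfl fun i _ => ?_
    congr 1
    rw [Matrix.repr_toLin]
    simp only [mulVec, dotProduct, rc_apply]
    push_cast
    rfl

end single

end Pool.Agent.E8helper1.NU
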