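import Mathlib
import Pool.Agent.E8helper1.NU.Trans

/-!
# Traces, the family of matrices
-/

set_option autoImplicit false
set_option linter.unusedSectionVars false

namespace Pool.Agent.E8helper1.NU

open Matrix Module TensorProduct Pool.Agent.H204R3.CM Pool.Agent.H204R3.GP Pool.Agent.W437.HC
  Pool.Agent.W516.MTD

/-- The real trace of a complex linear map. -/
theorem trace_restrict {T : Type} [AddCommGroup T] [Module ℂ T] [FiniteDimensional ℂ T]
    (L : T →ₗ[ℂ] T) :
    LinearMap.trace ℝ T (L.restrictScalars ℝ) = 2 * (LinearMap.trace ℂ T L).re := by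
  set b := Module.finBasis ℂ T
  set c := Complex.basisOneI.smulTower b with hc
  rw [LinearMap.trace_eq_matrix_trace ℝ c, LinearMap.trace_eq_matrix_trace ℂ b]
  simp only [Matrix.trace, Matrix.diag_apply, LinearMap.toMatrix_apply, Complex.re_sum]
  rw [Fintype.sum_prod_type, Fin.sum_univ_two, ← Finset.sum_add_distrib, Finset.mul_sum]
  refine Finset.sum_congr rfl fun j _ => ?_
  have h : ∀ i, c.repr (L.restrictScalars ℝ (c (i, j))) (i, j) =
      Complex.basisOneI.repr (Complex.basisOneI i * b.repr (L (b j)) j) i := by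
    intro i
    rw [hc, Basis.smulTower_apply, Basis.smulTower_repr]
    simp only [LinearMap.restrictScalars_apply, map_smul, Finsupp.smul_apply, smul_eq_mul]
  rw [h, h]
  simp only [Complex.coe_basisOneI_repr, Complex.coe_basisOneI, Matrix.cons_val_zero,
    Matrix.cons_val_one, Complex.mul_re, Complex.mul_im, Complex.one_re, Complex.one_im,
    Complex.I_re, Complex.I_im]
  ring

section single

variable {W T β : Type} [AddCommGroup W] [Module ℚ W] [AddCommGroup T] [Module ℂ T] [Fintype β]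
  [DecidableEq β] {bT : Basis β ℝ T}
  {per : W →+ T} {b0 : Basis β ℚ W} (hb : ∀ i, bT i = per (b0 i))

include hb

theorem trace_J {Q : Matrix β β ℚ} {Q' : T →ₗ[ℂ] T}
    (hQ : ∀ w, Q' (per w) = per (Matrix.toLin b0 b0 Q w)) :
    trace (JM bT * rc Q) = -2 * (LinearMap.trace ℂ T Q').im := by
  have : Module.Finite ℝ T := Module.Finite.of_basis bT
  have : FiniteDimensional ℂ T := Module.Finite.of_restrictScalars_finite ℝ ℂ T
  have h1 : JM bT * rc Q = LinearMap.toMatrix bT bT ((Complex.I • Q').restrictScalars ℝ) := by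
    have h2 : (Complex.I • Q').restrictScalars ℝ = mulI T * Q'.restrictScalars ℝ := by
      refine LinearMap.ext fun x => ?_
      rfl
    rw [h2, LinearMap.toMatrix_mul]
    unfold JM
    congr 1
    have h := ext_apply (Q' := Q'.restrictScalars ℝ) hb hQ
    apply Matrix.ext_of_mulVec_single
    intro j
    refine sum_inj bT ?_
    rw [LinearMap.toMatrix_toLin] at h
    rw [← h]
    have h3 : ∀ x : β → ℝ, Q'.restrictScalars ℝ (∑ i, x i • bT i) =
        ∑ i, (LinearMap.toMatrix bT bT (Q'.restrictScalars ℝ) *ᵥ x) i • bT i := by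
      intro x
      have e1 : x = ⇑(bT.repr (∑ i, x i • bT i)) := (Basis.repr_sum_self bT x).symm
      conv_rhs => rw [e1]
      rw [LinearMap.toMatrix_mulVec_repr]
      exact (bT.sum_repr _).symm
    exact h3 _
  rw [h1, ← LinearMap.trace_eq_matrix_trace ℝ bT, trace_restrict, map_smul, smul_eq_mul]
  simp

end single

section family

variable {B W T : Type} [AddCommGroup W] [Module ℚ W] [AddCommGroup T] [Module ℂ T]

/-- The family of matrices of the complex structures. -/
noncomputable def fam {N : ℕ} (per : B → W →+ T) (ω₀ : W →ₗ[ℚ] W →ₗ[ℚ] ℚ)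
    (b0 : Basis (Fin N) ℚ W) (bT : B → Basis (Fin N) ℝ T)
    (hb : ∀ b i, bT b i = per b (b0 i)) (hω : ∀ b, IsRiemannForm (per b) ω₀)
    (hne : Nonempty B) : Fam (Fin N) B where
  J b := JM (bT b)
  Om := OmM b0 ω₀
  Om_skew := hne.elim fun b => Om_skew (hb b) (hω b)
  J_sq b := JM_sq (bT b)
  J_sp b := J_sp' (hb b) (hω b)
  J_pos b _ hv := J_pos' (hb b) (hω b) hv

variable {N : ℕ} {per : B → W →+ T} {ω₀ : W →ₗ[ℚ] W →ₗ[ℚ] ℚ}
    {b0 : Basis (Fin N) ℚ W} {bT : B → Basis (Fin N) ℝ T}
    {hb : ∀ b i, bT b i = per b (b0 i)} {hω : ∀ b, IsRiemannForm (per b) ω₀}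
    {hne : Nonempty B}

theorem mem_E_iff (Q : Matrix (Fin N) (Fin N) ℚ) :
    Q ∈ (fam per ω₀ b0 bT hb hω hne).E ↔ IsFlatEnd per (Matrix.toLin b0 b0 Q) := by
  constructor
  · intro h b
    exact isHodgeEnd_of_comm (hb b) (h b)
  · intro h b
    have h1 := comm_of_isHodgeEnd (hb b) (h b)
    rwa [LinearMap.toMatrix_toLin] at h1

theorem cen_of (hcen : CentreHasRealTraces per) (Y : Matrix (Fin N) (Fin N) ℚ)
    (hY : Y ∈ (fam per ω₀ b0 bT hb hω hne).E)
    (hc : ∀ Q ∈ (fam per ω₀ b0 bT hb hω hne).E, Y * Q = Q * Y) (b : B) :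
    trace ((fam per ω₀ b0 bT hb hω hne).J b * rc Y) = 0 := by
  have h1 := (mem_E_iff Y).1 hY
  obtain ⟨Q', hQ'⟩ := h1 b
  have h2 : (LinearMap.trace ℂ T Q').im = 0 := by
    refine hcen _ h1 (fun R hR => ?_) b Q' hQ'
    have h3 : LinearMap.toMatrix b0 b0 R ∈ (fam per ω₀ b0 bT hb hω hne).E := by
      rw [mem_E_iff, Matrix.toLin_toMatrix]
      exact hR
    have h4 := congrArg (Matrix.toLin b0 b0) (hc _ h3)
    rw [Matrix.toLin_mul b0 b0 b0, Matrix.toLin_mul b0 b0 b0, Matrix.toLin_toMatrix] at h4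
    exact h4
  have h3 := trace_J (hb b) hQ'
  rw [h2, mul_zero] at h3
  exact h3

theorem noUnitary_of (hun : NoUnitaryPart per) : NoUnitary (fam per ω₀ b0 bT hb hω hne) := by
  intro e he hst
  obtain ⟨m, a, g, hg⟩ := Submodule.mem_span_set'.1 he
  choose A hA hA2 using fun i => (g i).2
  have h0 : ∀ b (x : Fin N → ℚ), ∑ i, a i • per b (Matrix.toLin b0 b0 (A i) (∑ j, x j • b0 j)) =
      ∑ j, (e *ᵥ fun j => (x j : ℝ)) j • bT b j := by
    intro b x
    have h1 : ∀ i, per b (Matrix.toLin b0 b0 (A i) (∑ j, x j • b0 j)) =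
        ∑ j, (rc (A i) *ᵥ fun j => (x j : ℝ)) j • bT b j := by
      intro i
      rw [per_sum (per b) b0]
      refine Finset.sum_congr rfl fun k _ => ?_
      rw [hb b k]
      congr 1
      rw [Matrix.repr_toLin, Basis.repr_sum_self]
      simp only [mulVec, dotProduct, rc_apply]
      push_cast
      rfl
    simp only [h1, Finset.smul_sum, smul_smul]
    rw [Finset.sum_comm]
    refine Finset.sum_congr rfl fun k _ => ?_
    rw [← Finset.sum_smul]
    congr 1
    rw [← hg, Matrix.sum_mulVec]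
    simp only [Finset.sum_apply]
    refine Finset.sum_congr rfl fun i _ => ?_
    rw [smul_mulVec, Pi.smul_apply, smul_eq_mul, ← hA2 i]
  have h1 := hun m a (fun i => Matrix.toLin b0 b0 (A i)) (fun i => (mem_E_iff _).1 (hA i)) ?_
  · obtain ⟨b⟩ := hne
    apply Matrix.ext_of_mulVec_single
    intro j
    refine sum_inj (bT b) ?_
    have h2 := h1 b (∑ k, (Pi.single j 1 : Fin N → ℚ) k • b0 k)
    rw [h0] at h2
    have h3 : (fun k => ((Pi.single j 1 : Fin N → ℚ) k : ℝ)) = Pi.single j 1 := by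
      funext k
      by_cases hk : k = j
      · subst hk
        simp
      · simp [Pi.single_eq_of_ne hk]
    rw [h3] at h2
    rw [h2]
    simp
  · intro s t θ hθ w
    have hw : w = ∑ j, (b0.repr w j) • b0 j := (b0.sum_repr w).symm
    rw [hw, h0, h0, I_smul_sum, I_smul_sum, map_sum]
    have h4 : ∀ j, θ (bT s j) = bT t j := by
      intro j
      rw [hb, hb]
      exact hθ _
    simp only [map_smul, h4, mulVec_mulVec]
    have h5 : JM (bT s) * e = JM (bT t) * e := hst s t
    rw [h5]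

end family

end Pool.Agent.E8helper1.NU
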