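import Mathlib
import Pool.Agent.E8helper1.NU.Trace

/-!
# Invariant classes are Hodge classes
-/

set_option autoImplicit false
set_option linter.unusedSectionVars false

namespace Pool.Agent.E8helper1.NU

open Matrix Module TensorProduct Pool.Agent.H204R3.CM Pool.Agent.H204R3.GP Pool.Agent.W437.HC
  Pool.Agent.W516.MTD

section single

variable {W T : Type} [AddCommGroup W] [Module ℚ W] [AddCommGroup T] [Module ℂ T] {N n k : ℕ}
  {bT : Basis (Fin N) ℝ T} {per : W →+ T} {b0 : Basis (Fin N) ℚ W}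
  (hb : ∀ i, bT i = per (b0 i))

/-- The basis of the homology of the power. -/
noncomputable def bas (b0 : Basis (Fin N) ℚ W) (n : ℕ) (p : Fin n × Fin N) : Fin n → W :=
  Pi.single p.1 (b0 p.2)

/-- The basis of the tangent space of the power. -/
noncomputable def basT (bT : Basis (Fin N) ℝ T) (n : ℕ) (p : Fin n × Fin N) : Fin n → T :=
  Pi.single p.1 (bT p.2)

/-- The coefficients of a form. -/
noncomputable def coef (b0 : Basis (Fin N) ℚ W) {R : Type} [AddCommGroup R] [Module ℚ R]
    (f : (Fin n → W) [⋀^Fin k]→ₗ[ℚ] R) : (Fin k → Fin n × Fin N) → R :=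
  fun I => f (fun l => bas b0 n (I l))

theorem sum_basT (x : Fin n × Fin N → ℝ) (j : Fin n) :
    (∑ p, x p • basT bT n p) j = ∑ i, x (j, i) • bT i := by
  rw [Finset.sum_apply, Fintype.sum_prod_type, Finset.sum_eq_single j]
  · refine Finset.sum_congr rfl fun i _ => ?_
    rw [Pi.smul_apply]
    unfold basT
    rw [Pi.single_eq_same]
  · intro j' _ hj
    refine Finset.sum_eq_zero fun i _ => ?_
    rw [Pi.smul_apply]
    unfold basT
    rw [Pi.single_eq_of_ne (Ne.symm hj), smul_zero]
  · intro h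
    exact absurd (Finset.mem_univ _) h

theorem exists_coord (u : Fin n → T) : ∃ x : Fin n × Fin N → ℝ, u = ∑ p, x p • basT bT n p := by
  refine ⟨fun p => bT.repr (u p.1) p.2, ?_⟩
  funext j
  rw [sum_basT]
  exact (bT.sum_repr (u j)).symm

theorem I_smul_basT (x : Fin n × Fin N → ℝ) :
    Complex.I • ∑ p, x p • basT bT n p = ∑ p, (bd n (JM bT) *ᵥ x) p • basT bT n p := by
  funext j
  rw [Pi.smul_apply, sum_basT, sum_basT, I_smul_sum bT (fun i => x (j, i))]
  refine Finset.sum_congr rfl fun i _ => ?_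
  congr 1
  simp only [mulVec, dotProduct]
  rw [Fintype.sum_prod_type, Finset.sum_eq_single j]
  · refine Finset.sum_congr rfl fun i' _ => ?_
    rw [bd_apply, if_pos rfl]
  · intro j' _ hj
    refine Finset.sum_eq_zero fun i' _ => ?_
    rw [bd_apply, if_neg (Ne.symm hj), zero_mul]
  · intro h
    exact absurd (Finset.mem_univ _) h

theorem I_smul_basT_single (p : Fin n × Fin N) :
    Complex.I • basT bT n p = ∑ q, bd n (JM bT) q p • basT bT n q := by
  have h := I_smul_basT (bT := bT) (Pi.single p (1 : ℝ))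
  have h1 : ∑ q, (Pi.single p (1 : ℝ) : Fin n × Fin N → ℝ) q • basT bT n q = basT bT n p := by
    rw [Finset.sum_eq_single p]
    · rw [Pi.single_eq_same, one_smul]
    · intro q _ hq
      rw [Pi.single_eq_of_ne hq, zero_smul]
    · intro h
      exact absurd (Finset.mem_univ _) h
  rw [h1] at h
  rw [h]
  refine Finset.sum_congr rfl fun q _ => ?_
  rw [mulVec_single_one]
  rfl

include hb

theorem pow_bas (p : Fin n × Fin N) : pow per n (bas b0 n p) = basT bT n p := by
  funext j
  change per (bas b0 n p j) = basT bT n p j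
  unfold bas basT
  by_cases hj : j = p.1
  · subst hj
    rw [Pi.single_eq_same, Pi.single_eq_same, hb]
  · rw [Pi.single_eq_of_ne hj, Pi.single_eq_of_ne hj, map_zero]

/-- The coefficients of the image under the Weil operator. -/
theorem weil_coef {f : (Fin n → W) [⋀^Fin k]→ₗ[ℚ] ℚ} {G : (Fin n → W) [⋀^Fin k]→ₗ[ℚ] ℝ}
    (h : IsWeilImage per f G) (I : Fin k → Fin n × Fin N) :
    coef b0 G I = act (bd n (JM bT)) (cst ℝ (coef b0 f)) I := by
  obtain ⟨Φ, hΦ, hG⟩ := h
  unfold coef
  rw [← hG]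
  unfold act
  refine Finset.sum_congr rfl fun l _ => ?_
  simp only [pow_bas hb]
  rw [I_smul_basT_single]
  rw [AlternatingMap.map_update_sum]
  refine Finset.sum_congr rfl fun q _ => ?_
  rw [AlternatingMap.map_update_smul, smul_eq_mul]
  congr 1
  rw [cst_apply, ← hΦ]
  congr 1
  funext l'
  rw [pow_bas hb]
  by_cases hl : l' = l
  · subst hl
    rw [Function.update_self, Function.update_self]
  · rw [Function.update_of_ne hl, Function.update_of_ne hl]

/-- A class killed by the Weil operator is a Hodge class. -/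
theorem isHodge_of_kill {f : (Fin n → W) [⋀^Fin k]→ₗ[ℚ] ℚ} {G : (Fin n → W) [⋀^Fin k]→ₗ[ℚ] ℝ}
    (h : IsWeilImage per f G) (h0 : act (bd n (JM bT)) (cst ℝ (coef b0 f)) = 0) :
    IsHodge (pow per n) f := by
  obtain ⟨Φ, hΦ, -⟩ := h
  have hc : (fun I : Fin k → Fin n × Fin N => Φ.toMultilinearMap fun l => basT bT n (I l)) =
      cst ℝ (coef b0 f) := by
    funext I
    rw [cst_apply]
    unfold coef
    rw [← hΦ]
    simp only [pow_bas hb]
    rfl
  have he : ∀ x : Fin k → Fin n × Fin N → ℝ, Φ (fun l => ∑ p, x l p • basT bT n p) =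
      evalF (cst ℝ (coef b0 f)) x := by
    intro x
    have := eval_eq Φ.toMultilinearMap (basT bT n) x
    rw [hc] at this
    exact this
  refine ⟨Φ.toMultilinearMap, hΦ, fun z hz u => ?_⟩
  choose x hx using fun l => exists_coord (bT := bT) (u l)
  have hJ : bd n (JM bT) * bd n (JM bT) = -1 := by
    rw [← bd_mul, JM_sq, map_neg, bd_one]
  have hθ : z = Complex.cos z.arg + Complex.sin z.arg * Complex.I := by
    have := Complex.norm_mul_cos_add_sin_mul_I z
    rw [hz, Complex.ofReal_one, one_mul] at this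
    exact this.symm
  have h1 : (fun l => z • u l) = fun l => ∑ p, (Real.cos z.arg • x l +
      Real.sin z.arg • (bd n (JM bT) *ᵥ x l)) p • basT bT n p := by
    funext l
    conv_lhs => rw [hx l, hθ]
    rw [add_smul, mul_smul, I_smul_basT]
    simp only [Pi.add_apply, Pi.smul_apply, smul_eq_mul, add_smul, Finset.sum_add_distrib,
      Finset.smul_sum, mul_smul]
    rw [← Complex.ofReal_cos, ← Complex.ofReal_sin]
    rfl
  change Φ (fun l => z • u l) = Φ u
  have h2 : u = fun l => ∑ p, x l p • basT bT n p := funext hx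
  rw [h1, he, rotate_invariant hJ h0, ← he, ← h2]

end single

section family

variable {B W T P : Type} [AddCommGroup W] [Module ℚ W] [FiniteDimensional ℚ W] [AddCommGroup T]
  [Module ℂ T] [Group P]

/-- The coefficients of the invariant forms. -/
noncomputable def invF (τ : Representation ℚ P W) (P' : Subgroup P) {N : ℕ} (b0 : Basis (Fin N) ℚ W)
    (n k : ℕ) : Submodule ℚ ((Fin k → Fin n × Fin N) → ℚ) where
  carrier := {c | ∃ f : (Fin n → W) [⋀^Fin k]→ₗ[ℚ] ℚ, IsInvariant τ P' f ∧ coef b0 f = c}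
  zero_mem' := ⟨0, fun _ _ _ => rfl, rfl⟩
  add_mem' := by
    rintro _ _ ⟨f, hf, rfl⟩ ⟨g, hg, rfl⟩
    refine ⟨f + g, fun γ hγ w => ?_, rfl⟩
    rw [AlternatingMap.add_apply, AlternatingMap.add_apply, hf γ hγ, hg γ hγ]
  smul_mem' := by
    rintro a _ ⟨f, hf, rfl⟩
    refine ⟨a • f, fun γ hγ w => ?_, rfl⟩
    rw [AlternatingMap.smul_apply, AlternatingMap.smul_apply, hf γ hγ]

/-- In a family without unitary part such that the central endomorphisms have real traces, the
invariant classes are Hodge classes. -/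
theorem invariant_isHodge (per : B → W →+ T) (hper : ∀ b, IsRationalStructure (per b))
    (ω₀ : W →ₗ[ℚ] W →ₗ[ℚ] ℚ) (hω : ∀ b, IsRiemannForm (per b) ω₀) (τ : Representation ℚ P W)
    (hfix : FixedPart per τ) (hcen : CentreHasRealTraces per) (hun : NoUnitaryPart per)
    (P' : Subgroup P) (hP' : P'.FiniteIndex) {n k : ℕ} (f : (Fin n → W) [⋀^Fin k]→ₗ[ℚ] ℚ)
    (hf : IsInvariant τ P' f) : IsFlatHodge per f := by
  intro b
  have hne : Nonempty B := ⟨b⟩
  let b0 : Basis (Fin (finrank ℚ W)) ℚ W := Module.finBasis ℚ W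
  choose bT hb using fun b => exists_real_basis (hper b) b0
  set D := fam per ω₀ b0 bT hb hω hne with hD
  have key : ∀ (lam : ℝ →ₗ[ℚ] ℚ) (g : (Fin n → W) [⋀^Fin k]→ₗ[ℚ] ℚ), IsInvariant τ P' g →
      ∃ g' : (Fin n → W) [⋀^Fin k]→ₗ[ℚ] ℚ, IsInvariant τ P' g' ∧
        ∀ b, rep (Fin (finrank ℚ W)) n (Fin k) ((D.J b).map lam) (coef b0 g) = coef b0 g' := by
    intro lam g hg
    obtain ⟨G, hG, hGb⟩ := hfix P' hP' n k g hg
    refine ⟨lam.compAlternatingMap G, fun γ hγ w => ?_, fun b => ?_⟩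
    · rw [LinearMap.compAlternatingMap_apply, LinearMap.compAlternatingMap_apply, hG γ hγ]
    · rw [rep_apply]
      funext I
      rw [← bd_map, ← lam_act]
      have h1 := weil_coef (hb b) (hGb b) I
      change lam (act (bd n (JM (bT b))) (cst ℝ (coef b0 g)) I) = _
      rw [← h1]
      rfl
  have h1 : ∀ lam : ℝ →ₗ[ℚ] ℚ,
      rep (Fin (finrank ℚ W)) n (Fin k) ((D.J b).map lam) (coef b0 f) = 0 := by
    intro lam
    refine Fam.kills (D := D) (F := invF τ P' b0 n k) (fun X Y => rep_bracket X Y)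
      ?_ ?_ (noUnitary_of hun) ?_ b lam ⟨f, hf, rfl⟩
    · rintro b lam _ ⟨g, hg, rfl⟩
      obtain ⟨g', hg', h⟩ := key lam g hg
      exact ⟨g', hg', (h b).symm⟩
    · rintro b b' lam _ ⟨g, hg, rfl⟩
      obtain ⟨g', hg', h⟩ := key lam g hg
      rw [h b, h b']
    · intro Y hY hc _ b
      exact cen_of hcen Y hY hc b
  obtain ⟨G, hG, hGb⟩ := hfix P' hP' n k f hf
  refine isHodge_of_kill (hb b) (hGb b) ?_
  funext I
  refine eq_zero_of_lam fun lam => ?_
  rw [lam_act, bd_map]
  exact congrFun (h1 lam) I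

end family

end Pool.Agent.E8helper1.NU
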