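import Mathlib
import Pool.Agent.E8helper1.NU.Forms

/-!
# Comparison of rational and `ℓ`-adic classes
-/

set_option autoImplicit false
set_option linter.unusedSectionVars false

namespace Pool.Agent.E8helper1.NU

open Matrix Module TensorProduct Pool.Agent.H204R3.CM Pool.Agent.H204R3.GP Pool.Agent.W437.HC
  Pool.Agent.W516.MTD

variable {K : Type} [Field K] [CharZero K] {W : Type} [AddCommGroup W] [Module ℚ W]

/-- The inclusion of the homology in the Tate module. -/
def inc (K : Type) [Field K] [CharZero K] (W : Type) [AddCommGroup W] [Module ℚ W] (n : ℕ) :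
    (Fin n → W) →ₗ[ℚ] (Fin n → K ⊗[ℚ] W) where
  toFun w := fun j => (1 : K) ⊗ₜ[ℚ] w j
  map_add' v w := by
    funext j
    exact TensorProduct.tmul_add _ _ _
  map_smul' a w := by
    funext j
    exact TensorProduct.tmul_smul _ _ _

theorem inc_apply {n : ℕ} (w : Fin n → W) (j : Fin n) : inc K W n w j = (1 : K) ⊗ₜ[ℚ] w j := rfl

/-- The basis of the Tate module of the power. -/
noncomputable def basK (K : Type) [Field K] [CharZero K] {N : ℕ} (b0 : Basis (Fin N) ℚ W) (n : ℕ) :
    Basis ((_ : Fin n) × Fin N) K (Fin n → K ⊗[ℚ] W) :=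
  Pi.basis fun _ => b0.baseChange K

theorem basK_apply {N n : ℕ} (b0 : Basis (Fin N) ℚ W) (p : (_ : Fin n) × Fin N) :
    basK K b0 n p = inc K W n (bas b0 n (p.1, p.2)) := by
  funext j
  unfold basK
  rw [Pi.basis_apply, inc_apply]
  unfold bas
  by_cases hj : j = p.1
  · subst hj
    simp only [Pi.single_eq_same, Basis.baseChange_apply]
  · simp only [Pi.single_eq_of_ne hj, TensorProduct.tmul_zero]

section ext

variable {M : Type} [AddCommGroup M] [Module K M] [FiniteDimensional ℚ W] {n k : ℕ}

/-- Two `ℓ`-adic classes that agree on the rational homology are equal. -/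
theorem ext_of_rat {F G : (Fin n → K ⊗[ℚ] W) [⋀^Fin k]→ₗ[K] M}
    (h : ∀ w : Fin k → Fin n → W, F (fun l => inc K W n (w l)) = G (fun l => inc K W n (w l))) :
    F = G := by
  refine Module.Basis.ext_alternating (basK K (Module.finBasis ℚ W) n) fun v _ => ?_
  simp only [basK_apply]
  exact h _

/-- The coefficients of an alternating form are antisymmetric. -/
theorem coef_swap {N : ℕ} (b0 : Basis (Fin N) ℚ W) (f : (Fin n → W) [⋀^Fin k]→ₗ[ℚ] ℚ)
    {i j : Fin k} (hij : i ≠ j) (I : Fin k → Fin n × Fin N) :
    coef b0 f (fun l => I (Equiv.swap i j l)) = -coef b0 f I := by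
  unfold coef
  have h := f.map_swap (fun l => bas b0 n (I l)) hij
  exact h

/-- The value with equal arguments of a function with antisymmetric coefficients. -/
theorem evalF_eq_zero {ι : Type} [Fintype ι] [DecidableEq ι] {c : (Fin k → ι) → K} {i j : Fin k}
    (hc : ∀ I : Fin k → ι, c (fun l => I (Equiv.swap i j l)) = -c I) {x : Fin k → ι → K}
    (hx : x i = x j) : evalF c x = 0 := by
  have h1 : evalF c x = -evalF c x := by
    unfold evalF
    rw [← Finset.sum_neg_distrib]
    refine Fintype.sum_equiv ((Equiv.swap i j).arrowCongr (Equiv.refl ι)) _ _ fun I => ?_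
    have h2 : ((Equiv.swap i j).arrowCongr (Equiv.refl ι)) I = fun l => I (Equiv.swap i j l) := by
      funext l
      simp [Equiv.arrowCongr]
    rw [h2, hc, neg_mul, neg_neg]
    congr 1
    have h3 : ∀ l, x l = x (Equiv.swap i j l) := by
      intro l
      by_cases h4 : l = i
      · rw [h4, Equiv.swap_apply_left, hx]
      · by_cases h5 : l = j
        · rw [h5, Equiv.swap_apply_right, hx]
        · rw [Equiv.swap_apply_of_ne_of_ne h4 h5]
    refine Fintype.prod_equiv (Equiv.swap i j) _ _ fun l => ?_
    rw [h3 l]
    change x _ (I l) = x _ (I (Equiv.swap i j (Equiv.swap i j l)))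
    rw [Equiv.swap_apply_self]
  have h2 : (2 : K) * evalF c x = 0 := by
    rw [two_mul]
    nth_rewrite 2 [h1]
    rw [add_neg_cancel]
  exact (mul_eq_zero.1 h2).resolve_left two_ne_zero

/-- The extension of scalars of a rational class. -/
noncomputable def extend (K : Type) [Field K] [CharZero K] (f : (Fin n → W) [⋀^Fin k]→ₗ[ℚ] ℚ) :
    (Fin n → K ⊗[ℚ] W) [⋀^Fin k]→ₗ[K] K :=
  { (evalM (cst K (coef (Module.finBasis ℚ W) f))).compLinearMap (fun _ =>
      (({ toFun := fun u p => ((Module.finBasis ℚ W).baseChange K).repr (u p.1) p.2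
          map_add' := by
            intro u v
            funext p
            simp only [Pi.add_apply, map_add, Finsupp.add_apply]
          map_smul' := by
            intro a u
            funext p
            simp only [Pi.smul_apply, map_smul, Finsupp.smul_apply, RingHom.id_apply] }) :
        (Fin n → K ⊗[ℚ] W) →ₗ[K] (Fin n × Fin (finrank ℚ W) → K))) with
    map_eq_zero_of_eq' := by
      intro v i j hv hij
      refine evalF_eq_zero (c := cst K (coef (Module.finBasis ℚ W) f)) (i := i) (j := j) ?_ ?_
      · intro I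
        rw [cst_apply, coef_swap _ _ hij, cst_apply, Rat.cast_neg]
      · simp only [hv] }

theorem compares_extend (f : (Fin n → W) [⋀^Fin k]→ₗ[ℚ] ℚ) : Compares f (extend K f) := by
  intro w
  change evalF (cst K (coef (Module.finBasis ℚ W) f)) (fun l p =>
    ((Module.finBasis ℚ W).baseChange K).repr ((1 : K) ⊗ₜ[ℚ] w l p.1) p.2) = _
  set b0 := Module.finBasis ℚ W with hb0
  have h1 : (fun (l : Fin k) (p : Fin n × Fin (finrank ℚ W)) =>
      (b0.baseChange K).repr ((1 : K) ⊗ₜ[ℚ] w l p.1) p.2) =
      fun l p => ((b0.repr (w l p.1) p.2 : ℚ) : K) := by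
    funext l p
    rw [Basis.baseChange_repr_tmul, Rat.smul_def, mul_one]
  rw [h1]
  have h2 := eval_eq f.toMultilinearMap (bas b0 n) (fun l p => b0.repr (w l p.1) p.2)
  have h3 : (fun l => ∑ p, b0.repr (w l p.1) p.2 • bas b0 n p) = w := by
    funext l j
    rw [Finset.sum_apply, Fintype.sum_prod_type, Finset.sum_eq_single j]
    · have : ∀ i, (b0.repr (w l j) i • bas b0 n (j, i)) j = b0.repr (w l j) i • b0 i := by
        intro i
        rw [Pi.smul_apply]
        unfold bas
        rw [Pi.single_eq_same]
      simp only [this]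
      exact b0.sum_repr _
    · intro j' _ hj
      refine Finset.sum_eq_zero fun i _ => ?_
      rw [Pi.smul_apply]
      unfold bas
      rw [Pi.single_eq_of_ne (Ne.symm hj), smul_zero]
    · intro h
      exact absurd (Finset.mem_univ _) h
  rw [h3] at h2
  have h4 : f.toMultilinearMap w = f w := rfl
  rw [h4] at h2
  rw [h2]
  unfold evalF
  push_cast
  rfl

end ext

/-- The restriction of an `ℓ`-adic class to the rational homology. -/
def restr {M : Type} [AddCommGroup M] [Module K M] [Module ℚ M] {n k : ℕ}
    (F : (Fin n → K ⊗[ℚ] W) [⋀^Fin k]→ₗ[K] M) (hM : ∀ (q : ℚ) (x : M), q • x = (q : K) • x) :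
    (Fin n → W) [⋀^Fin k]→ₗ[ℚ] M where
  toFun w := F fun l => inc K W n (w l)
  map_update_add' := by
    intro inst w l x y
    have h : ∀ z, (fun l' => inc K W n (Function.update w l z l')) =
        Function.update (fun l' => inc K W n (w l')) l (inc K W n z) := by
      intro z
      funext l'
      by_cases hl : l' = l
      · subst hl
        simp
      · simp [hl]
    rw [h, h, h, map_add, AlternatingMap.map_update_add]
  map_update_smul' := by
    intro inst w l a x
    have h : ∀ z, (fun l' => inc K W n (Function.update w l z l')) =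
        Function.update (fun l' => inc K W n (w l')) l (inc K W n z) := by
      intro z
      funext l'
      by_cases hl : l' = l
      · subst hl
        simp
      · simp [hl]
    have h2 : inc K W n (a • x) = (a : K) • inc K W n x := by
      funext j
      rw [Pi.smul_apply, inc_apply, inc_apply, Pi.smul_apply, TensorProduct.tmul_smul,
        TensorProduct.smul_tmul', TensorProduct.smul_tmul', Rat.smul_def, smul_eq_mul]
    rw [h, h, h2, AlternatingMap.map_update_smul, hM]
  map_eq_zero_of_eq' := by
    intro w i j hw hij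
    exact F.map_eq_zero_of_eq _ (by simp only [hw]) hij

end Pool.Agent.E8helper1.NU
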