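import Mathlib
import Pool.Agent.E8helper1.NU.Ladic

/-!
# Tate classes on products of an abelian scheme and a constant variety
-/

set_option autoImplicit false
set_option linter.unusedSectionVars false

namespace Pool.Agent.E8helper1.NU

open Matrix Module TensorProduct Pool.Agent.H204R3.CM Pool.Agent.H204R3.GP Pool.Agent.W437.HC
  Pool.Agent.W516.MTD

variable {K : Type} [Field K] [CharZero K] {B W T P Γ M : Type} [AddCommGroup W] [Module ℚ W]
  [FiniteDimensional ℚ W] [AddCommGroup T] [Module ℂ T] [Group P] [Group Γ] [AddCommGroup M]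
  [Module K M]

/-- The invariant classes. -/
def invForms (τ : Representation ℚ P W) (P' : Subgroup P) (n k : ℕ) :
    Submodule ℚ ((Fin n → W) [⋀^Fin k]→ₗ[ℚ] ℚ) where
  carrier := {f | IsInvariant τ P' f}
  zero_mem' := fun _ _ _ => rfl
  add_mem' := by
    intro f g hf hg γ hγ w
    rw [AlternatingMap.add_apply, AlternatingMap.add_apply, hf γ hγ, hg γ hγ]
  smul_mem' := by
    intro a f hf γ hγ w
    rw [AlternatingMap.smul_apply, AlternatingMap.smul_apply, hf γ hγ]

/-- A Hodge class of odd degree is zero. -/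
theorem hodge_odd {per : W →+ T} {n k : ℕ} {f : (Fin n → W) [⋀^Fin k]→ₗ[ℚ] ℚ}
    (hf : IsHodge (pow per n) f) (hk : Odd k) : f = 0 := by
  obtain ⟨ψ, h1, h2⟩ := hf
  ext w
  have h3 := h2 (-1) (by simp) (fun l => pow per n (w l))
  have h4 : (fun l => (-1 : ℂ) • pow per n (w l)) = fun l => (-1 : ℝ) • pow per n (w l) := by
    funext l
    rw [neg_one_smul, neg_one_smul]
  rw [h4] at h3
  rw [MultilinearMap.map_smul_univ ψ (fun _ : Fin k => (-1 : ℝ)), h1] at h3
  simp only [Finset.prod_const, Finset.card_univ, Fintype.card_fin] at h3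
  rw [hk.neg_one_pow, neg_one_smul] at h3
  have h5 : ((f w : ℚ) : ℝ) = 0 := by linarith
  have h6 : f w = 0 := by exact_mod_cast h5
  rw [h6]
  rfl

theorem alt_sum_apply {ι : Type} (s : Finset ι) {n k : ℕ}
    (f : ι → (Fin n → W) [⋀^Fin k]→ₗ[ℚ] ℚ) (w : Fin k → Fin n → W) :
    (∑ i ∈ s, f i) w = ∑ i ∈ s, f i w := by
  classical
  induction s using Finset.induction_on with
  | empty => rfl
  | insert i s hi ih => rw [Finset.sum_insert hi, Finset.sum_insert hi, AlternatingMap.add_apply, ih]

/-- Linear independence of rational forms with coefficients in a rational vector space. -/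
theorem indep_coeff {M : Type} [AddCommGroup M] [Module ℚ M] {n k q : ℕ}
    {h : Fin q → (Fin n → W) [⋀^Fin k]→ₗ[ℚ] ℚ} (hi : LinearIndependent ℚ h) {z : Fin q → M}
    (hz : ∀ w, ∑ j, h j w • z j = 0) (j : Fin q) : z j = 0 := by
  rw [← Module.forall_dual_apply_eq_zero_iff ℚ (z j)]
  intro mu
  have h1 : ∑ j, mu (z j) • h j = 0 := by
    ext w
    rw [alt_sum_apply]
    have h2 := congrArg mu (hz w)
    rw [map_sum, map_zero] at h2
    rw [AlternatingMap.zero_apply, ← h2]
    refine Finset.sum_congr rfl fun i _ => ?_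
    rw [AlternatingMap.smul_apply, map_smul, smul_eq_mul, smul_eq_mul, mul_comm]
  exact Fintype.linearIndependent_iff.1 hi _ h1 j

/-- An invariant class with values in a rational vector space is a combination of rational invariant
classes. -/
theorem exists_expansion {M : Type} [AddCommGroup M] [Module ℚ M] {n k : ℕ}
    (τ : Representation ℚ P W) (P' : Subgroup P) (f : (Fin n → W) [⋀^Fin k]→ₗ[ℚ] M)
    (hf : IsInvariant τ P' f) :
    ∃ (q : ℕ) (h : Fin q → (Fin n → W) [⋀^Fin k]→ₗ[ℚ] ℚ) (z : Fin q → M),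
      LinearIndependent ℚ h ∧ (∀ j, IsInvariant τ P' (h j)) ∧ ∀ w, f w = ∑ j, h j w • z j := by
  classical
  let b0 := Module.finBasis ℚ W
  -- the span of the values
  let S : Submodule ℚ M := Submodule.span ℚ (Set.range (coef b0 f))
  have hS : FiniteDimensional ℚ S := FiniteDimensional.span_of_finite ℚ (Set.finite_range _)
  have hval : ∀ w, f w ∈ S := by
    intro w
    have h1 : w = fun l => ∑ p : Fin n × Fin (finrank ℚ W), b0.repr (w l p.1) p.2 • bas b0 n p := by
      funext l j
      rw [Finset.sum_apply, Fintype.sum_prod_type, Finset.sum_eq_single j]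
      · have : ∀ i, (b0.repr (w l j) i • bas b0 n (j, i)) j = b0.repr (w l j) i • b0 i := by
          intro i
          rw [Pi.smul_apply]
          unfold bas
          rw [Pi.single_eq_same]
        simp only [this]
        exact (b0.sum_repr _).symm
      · intro j' _ hj
        refine Finset.sum_eq_zero fun i _ => ?_
        rw [Pi.smul_apply]
        unfold bas
        rw [Pi.single_eq_of_ne (Ne.symm hj), smul_zero]
      · intro h
        exact absurd (Finset.mem_univ _) h
    rw [h1]
    have h2 : f (fun l => ∑ p : Fin n × Fin (finrank ℚ W), b0.repr (w l p.1) p.2 • bas b0 n p) =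
        f.toMultilinearMap (fun l => ∑ p : Fin n × Fin (finrank ℚ W),
          b0.repr (w l p.1) p.2 • bas b0 n p) := rfl
    rw [h2, MultilinearMap.map_sum]
    refine Submodule.sum_mem _ fun I _ => ?_
    rw [MultilinearMap.map_smul_univ]
    exact Submodule.smul_mem _ _ (Submodule.subset_span ⟨I, rfl⟩)
  obtain ⟨pr, hpr⟩ := S.subtype.exists_leftInverse_of_injective S.ker_subtype
  have hpr' : ∀ x : M, x ∈ S → ((pr x : S) : M) = x := by
    intro x hx
    have := LinearMap.congr_fun hpr ⟨x, hx⟩
    rw [LinearMap.comp_apply, LinearMap.id_apply] at this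
    change pr x = _ at this
    rw [this]
  let y := Module.finBasis ℚ S
  let f1 : Fin (finrank ℚ S) → (Fin n → W) [⋀^Fin k]→ₗ[ℚ] ℚ := fun j =>
    ((y.coord j).comp pr).compAlternatingMap f
  have hf1 : ∀ w, f w = ∑ j, f1 j w • (y j : M) := by
    intro w
    have h1 : pr (f w) = ∑ j, y.repr (pr (f w)) j • y j := (y.sum_repr _).symm
    have h2 := congrArg (fun x : S => (x : M)) h1
    rw [hpr' _ (hval w)] at h2
    rw [h2]
    simp only [Submodule.coe_sum, Submodule.coe_smul]
    rfl
  -- a basis of the span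
  let H : Submodule ℚ ((Fin n → W) [⋀^Fin k]→ₗ[ℚ] ℚ) := Submodule.span ℚ (Set.range f1)
  have hH : FiniteDimensional ℚ H := FiniteDimensional.span_of_finite ℚ (Set.finite_range _)
  have hinv : H ≤ invForms τ P' n k := by
    refine Submodule.span_le.2 ?_
    rintro _ ⟨j, rfl⟩ γ hγ w
    change ((y.coord j).comp pr) (f _) = ((y.coord j).comp pr) (f _)
    rw [hf γ hγ]
  let h := Module.finBasis ℚ H
  refine ⟨finrank ℚ H, fun i => (h i : (Fin n → W) [⋀^Fin k]→ₗ[ℚ] ℚ),
    fun i => ∑ j, h.repr ⟨f1 j, Submodule.subset_span ⟨j, rfl⟩⟩ i • (y j : M), ?_,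
    fun i => hinv (h i).2, fun w => ?_⟩
  · exact h.linearIndependent.map' H.subtype H.ker_subtype
  · rw [hf1 w]
    have h3 : ∀ j, f1 j w = ∑ i, h.repr ⟨f1 j, Submodule.subset_span ⟨j, rfl⟩⟩ i *
        (h i : (Fin n → W) [⋀^Fin k]→ₗ[ℚ] ℚ) w := by
      intro j
      have h4 := congrArg (fun x : H => (x : (Fin n → W) [⋀^Fin k]→ₗ[ℚ] ℚ) w)
        (h.sum_repr ⟨f1 j, Submodule.subset_span ⟨j, rfl⟩⟩)
      simp only [Submodule.coe_sum, Submodule.coe_smul, alt_sum_apply,
        AlternatingMap.smul_apply, smul_eq_mul] at h4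
      exact h4.symm
    simp only [h3, Finset.sum_smul, Finset.smul_sum, smul_smul]
    rw [Finset.sum_comm]
    refine Finset.sum_congr rfl fun i _ => Finset.sum_congr rfl fun j _ => ?_
    rw [mul_comm]

end Pool.Agent.E8helper1.NU
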