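import Mathlib
import Pool.Agent.E8helper1.NU.Main

/-!
# The main theorem
-/

set_option autoImplicit false
set_option linter.unusedSectionVars false

namespace Pool.Agent.E8helper1.NU

open Matrix Module TensorProduct Pool.Agent.H204R3.CM Pool.Agent.H204R3.GP Pool.Agent.W437.HC
  Pool.Agent.W516.MTD

variable {K : Type} [Field K] [CharZero K] {B W T P Γ M : Type} [AddCommGroup W] [Module ℚ W]
  [FiniteDimensional ℚ W] [AddCommGroup T] [Module ℂ T] [Group P] [Group Γ] [AddCommGroup M]
  [Module K M]

theorem chi_ne_zero (χ : Γ →* K) (s : Γ) : χ s ≠ 0 := by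
  intro h
  have h1 : χ s * χ s⁻¹ = 1 := by rw [← map_mul, mul_inv_cancel, map_one]
  rw [h, zero_mul] at h1
  exact zero_ne_one h1

/-- Product classes are Tate classes. -/
theorem tate_of_product {per : B → W →+ T} {ρ : Representation K Γ (K ⊗[ℚ] W)} {χ : Γ →* K}
    {σ : Representation K Γ M} (hD : HodgeIsTate per ρ χ) {n k m : ℕ}
    {F : (Fin n → K ⊗[ℚ] W) [⋀^Fin k]→ₗ[K] M} (hF : F ∈ productClasses per χ σ n k m) :
    IsTateOnProduct ρ χ σ m F := by
  refine Submodule.span_induction (p := fun F _ => IsTateOnProduct ρ χ σ m F) ?_ ?_ ?_ ?_ hF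
  · rintro F ⟨r, i, f, f', x, rfl, rfl, hf, hff, ⟨Δ, hΔ, hx⟩, hFv⟩
    obtain ⟨Δ', hΔ', hf'⟩ := hD n r f f' hf hff
    refine ⟨Δ ⊓ Δ', inferInstance, fun s hs v => ?_⟩
    rw [hFv, hFv, hf' s hs.2, map_smul, ← smul_assoc, smul_eq_mul, Representation.trivial_apply]
    conv_lhs => rw [← hx s hs.1]
    rw [smul_smul, pow_add]
    congr 1
    rw [smul_eq_mul]
    ring
  · exact ⟨⊤, inferInstance, fun s _ v => by simp⟩
  · rintro F G _ _ ⟨Δ, hΔ, h⟩ ⟨Δ', hΔ', h'⟩
    refine ⟨Δ ⊓ Δ', inferInstance, fun s hs v => ?_⟩
    rw [AlternatingMap.add_apply, AlternatingMap.add_apply, h s hs.1, h' s hs.2, map_add, smul_add]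
  · rintro a F _ ⟨Δ, hΔ, h⟩
    refine ⟨Δ, hΔ, fun s hs v => ?_⟩
    rw [AlternatingMap.smul_apply, AlternatingMap.smul_apply, h s hs, map_smul, smul_comm]

/-- The monodromy of a constant variety is independent of every monodromy. -/
theorem independent_of_constant (τ : Representation ℚ P W) (ς : Representation K P M)
    (h : ∀ γ, ς γ = 1) : IndependentMonodromy τ ς := by
  intro P' hP' n k F hF
  refine ⟨P', hP', fun γ hγ v => ?_⟩
  rw [hF γ hγ v, h, Module.End.one_apply]

/-- The main theorem. -/
theorem main [Nonempty B] (per : B → W →+ T) (hper : ∀ b, IsRationalStructure (per b))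
    (ω₀ : W →ₗ[ℚ] W →ₗ[ℚ] ℚ) (hω : ∀ b, IsRiemannForm (per b) ω₀) (τ : Representation ℚ P W)
    (hfix : FixedPart per τ) (hcen : CentreHasRealTraces per) (hun : NoUnitaryPart per)
    (ρ : Representation K Γ (K ⊗[ℚ] W)) (χ : Γ →* K) (σ : Representation K Γ M)
    (φ : P →* Γ) (hρ : ∀ γ, ρ (φ γ) = (τ γ).baseChange K) (hχ : ∀ γ, χ (φ γ) = 1)
    (hind : IndependentMonodromy τ (σ.comp φ : Representation K P M)) (hD : HodgeIsTate per ρ χ)
    {n k m : ℕ} (hk : k ≤ 2 * m)
    (F : (Fin n → K ⊗[ℚ] W) [⋀^Fin k]→ₗ[K] M) :
    IsTateOnProduct ρ χ σ m F ↔ F ∈ productClasses per χ σ n k m := by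
  refine ⟨fun hF => ?_, tate_of_product hD⟩
  obtain ⟨Δ, hΔ, hF⟩ := hF
  let _ : Module ℚ M := Module.compHom M (algebraMap ℚ K)
  have hM : ∀ (q : ℚ) (x : M), q • x = (q : K) • x := fun q x => by
    change (algebraMap ℚ K q) • x = _
    rw [eq_ratCast]
  have hP' : (Δ.comap φ).FiniteIndex := by
    refine ⟨?_⟩
    have h1 : Δ.relIndex ⊤ ≠ 0 := by
      rw [Subgroup.relIndex_top_right]
      exact hΔ.index_ne_zero
    have h2 := Subgroup.relIndex_comap_ne_zero φ h1
    rwa [Subgroup.comap_top, Subgroup.relIndex_top_right] at h2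
  -- invariance of the restriction
  obtain ⟨P'', hP'', hF'⟩ := hind _ hP' n k F (by
    intro γ hγ v
    have h1 := hF (φ γ) hγ v
    rw [hχ, one_pow, one_smul, hρ] at h1
    exact h1)
  have hinv : IsInvariant τ P'' (restr F hM) := by
    intro γ hγ w
    change F (fun l => inc K W n fun j => τ γ (w l j)) = F fun l => inc K W n (w l)
    rw [← hF' γ hγ (fun l => inc K W n (w l))]
    congr 1
  obtain ⟨q, h, z, hli, hh, hz⟩ := exists_expansion τ P'' (restr F hM) hinv
  have hHodge : ∀ j, IsFlatHodge per (h j) := fun j =>
    invariant_isHodge per hper ω₀ hω τ hfix hcen hun _ hP'' (h j) (hh j)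
  rcases Nat.even_or_odd k with hev | hodd
  · obtain ⟨r, hr⟩ := hev
    have hr2 : k = 2 * r := by omega
    subst hr2
    obtain ⟨i, rfl⟩ : ∃ i, m = r + i := ⟨m - r, by omega⟩
    -- the expansion of `F`
    have hFexp : ∀ v, F v = ∑ j, extend K (h j) v • z j := by
      have h1 : F = ∑ j, (LinearMap.toSpanSingleton K M (z j)).compAlternatingMap
          (extend K (h j)) := by
        refine ext_of_rat fun w => ?_
        have h2 : F (fun l => inc K W n (w l)) = restr F hM w := rfl
        rw [h2, hz w]
        have h3 : ∀ (s : Finset (Fin q)), (∑ j ∈ s, (LinearMap.toSpanSingleton K M (z j)).compAlternatingMap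
            (extend K (h j))) (fun l => inc K W n (w l)) = ∑ j ∈ s, h j w • z j := by
          intro s
          classical
          induction s using Finset.induction_on with
          | empty => rfl
          | insert j s hj ih =>
            rw [Finset.sum_insert hj, Finset.sum_insert hj, AlternatingMap.add_apply, ih]
            congr 1
            rw [LinearMap.compAlternatingMap_apply, LinearMap.toSpanSingleton_apply]
            have h4 := compares_extend (K := K) (h j) w
            change extend K (h j) (fun l => inc K W n (w l)) = _ at h4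
            rw [h4, hM]
        exact (h3 _).symm
      intro v
      conv_lhs => rw [h1]
      have h3 : ∀ (s : Finset (Fin q)), (∑ j ∈ s, (LinearMap.toSpanSingleton K M (z j)).compAlternatingMap
          (extend K (h j))) v = ∑ j ∈ s, extend K (h j) v • z j := by
        intro s
        classical
        induction s using Finset.induction_on with
        | empty => rfl
        | insert j s hj ih =>
          rw [Finset.sum_insert hj, Finset.sum_insert hj, AlternatingMap.add_apply, ih]
          rfl
      exact h3 _
    choose Δ' hΔ' hΔ'' using fun j => hD n r (h j) (extend K (h j)) (hHodge j) (compares_extend _)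
    -- the coefficients are Tate classes
    have hzT : ∀ j, IsTateOn χ σ i (z j) := by
      intro j
      refine ⟨Δ ⊓ ⨅ j, Δ' j, ?_, fun s hs => ?_⟩
      · have : (⨅ j, Δ' j).FiniteIndex := Subgroup.finiteIndex_iInf hΔ'
        infer_instance
      · have h1 : ∀ w, ∑ j, h j w • (χ s ^ r • z j - χ s ^ (r + i) • σ s (z j)) = 0 := by
          intro w
          have h2 := hF s hs.1 (fun l => inc K W n (w l))
          rw [hFexp, hFexp, map_sum, Finset.smul_sum] at h2
          have h3 : ∀ j, extend K (h j) (fun l j => ρ s (inc K W n (w l) j)) =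
              χ s ^ r * extend K (h j) (fun l => inc K W n (w l)) := by
            intro j
            have := hΔ'' j s ((Subgroup.mem_iInf.1 hs.2) j) (fun l => inc K W n (w l))
            rw [this, smul_eq_mul]
            rfl
          have h4 : ∀ j, extend K (h j) (fun l => inc K W n (w l)) = ((h j w : ℚ) : K) :=
            fun j => compares_extend (K := K) (h j) w
          simp only [smul_sub, Finset.sum_sub_distrib]
          rw [sub_eq_zero]
          have e1 : ∀ j, h j w • (χ s ^ r • z j) =
              extend K (h j) (fun l j => ρ s (inc K W n (w l) j)) • z j := by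
            intro j
            rw [h3, h4, hM, smul_smul, mul_comm]
          have e2 : ∀ j, h j w • (χ s ^ (r + i) • σ s (z j)) =
              χ s ^ (r + i) • σ s (extend K (h j) (fun l => inc K W n (w l)) • z j) := by
            intro j
            rw [h4, hM, map_smul, smul_smul, smul_smul, mul_comm]
          rw [Finset.sum_congr rfl (fun j _ => e1 j), Finset.sum_congr rfl (fun j _ => e2 j)]
          exact h2
        have h2 := indep_coeff hli h1 j
        rw [pow_add, mul_smul, ← smul_sub] at h2
        have h3 := (smul_eq_zero.1 h2).resolve_left (pow_ne_zero _ (chi_ne_zero χ s))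
        exact (sub_eq_zero.1 h3).symm
    have hsum : F = ∑ j, (LinearMap.toSpanSingleton K M (z j)).compAlternatingMap
        (extend K (h j)) := by
      ext v
      rw [hFexp]
      have h3 : ∀ (s : Finset (Fin q)), (∑ j ∈ s, (LinearMap.toSpanSingleton K M (z j)).compAlternatingMap
          (extend K (h j))) v = ∑ j ∈ s, extend K (h j) v • z j := by
        intro s
        classical
        induction s using Finset.induction_on with
        | empty => rfl
        | insert j s hj ih =>
          rw [Finset.sum_insert hj, Finset.sum_insert hj, AlternatingMap.add_apply, ih]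
          rfl
      exact (h3 _).symm
    rw [hsum]
    exact Submodule.sum_mem _ fun j _ => Submodule.subset_span
      ⟨r, i, h j, extend K (h j), z j, rfl, rfl, hHodge j, compares_extend _, hzT j, fun v => rfl⟩
  · -- odd degree
    obtain ⟨b⟩ := ‹Nonempty B›
    have h0 : F = 0 := by
      refine ext_of_rat fun w => ?_
      have h2 : F (fun l => inc K W n (w l)) = restr F hM w := rfl
      rw [h2, hz w]
      refine Finset.sum_eq_zero fun j _ => ?_
      rw [hodge_odd (hHodge j b) hodd, AlternatingMap.zero_apply, zero_smul]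
    rw [h0]
    exact Submodule.zero_mem _

end Pool.Agent.E8helper1.NU
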